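import Pool.Agent.R683.NP.Norm
import Pool.Agent.TH901.NC.Deg

/-!
The polynomials `g([x, y], y)`.
-/

set_option autoImplicit false

namespace Pool.Agent.R683.NP

open Matrix Pool.Agent.H552R3.PC Pool.Agent.TH82.NC Pool.Agent.R676.NC
open Pool.Agent.TH901.NC (CA ca cR)
open Pool.Agent.Results.MP_5d2531_al.BlockTriangular

universe u

variable {K : Type u} [Field K] {σ : Type*} {n : ℕ}

/-- The pairs whose second matrix is diagonal with distinct entries are dense. -/
lemma diag_dense [Infinite K] (hn : n ≠ 0) (f : FreeAlgebra K (Fin 2))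
    (h : ∀ (X : Matrix (Fin n) (Fin n) K) (d : Fin n → K), Function.Injective d →
      ∃ c : K, FreeAlgebra.lift K ![X, Matrix.diagonal d] f = Matrix.scalar (Fin n) c) :
    ScalarValued n f := by
  classical
  obtain ⟨N, rfl⟩ := Nat.exists_eq_succ_of_ne_zero hn
  set G : Matrix (Fin (N + 1)) (Fin (N + 1)) (CA K (Fin 2) N) :=
    FreeAlgebra.lift K (Pool.Agent.TH901.NC.mt (fun s => s = (1 : Fin 2)) (ca K (Fin 2) N) (cR K (Fin 2) N)) f with hG
  set δ : CA K (Fin 2) N := ∏ p ∈ (Finset.univ : Finset (Fin (N + 1) × Fin (N + 1))) with p.1 ≠ p.2,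
    (ca K (Fin 2) N 1 p.1 - ca K (Fin 2) N 1 p.2) with hδ
  have hδ0 : δ ≠ 0 := by
    rw [hδ, Finset.prod_ne_zero_iff]
    intro p hp
    rw [sub_ne_zero]
    intro e
    have := MvPolynomial.X_injective e
    simp only [Sum.inl.injEq, Prod.mk.injEq, true_and] at this
    exact (Finset.mem_filter.1 hp).2 this
  -- evaluation at a point
  have hev : ∀ v : ((Fin 2 × Fin (N + 1)) ⊕ (Fin 2 × Fin (N + 1) × Fin (N + 1))) → K,
      (MvPolynomial.aeval v : CA K (Fin 2) N →ₐ[K] K).mapMatrix G =
      FreeAlgebra.lift K ![Matrix.of fun i j => v (Sum.inr (0, i, j)),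
        Matrix.diagonal fun i => v (Sum.inl (1, i))] f := by
    intro v
    rw [hG, lift_map]
    congr 2
    funext s
    fin_cases s
    · ext i j
      simp [Pool.Agent.TH901.NC.mt, cR]
    · ext i j
      by_cases hij : i = j
      · subst hij; simp [Pool.Agent.TH901.NC.mt, ca]
      · simp [Pool.Agent.TH901.NC.mt, hij]
  have key : ∀ (q : CA K (Fin 2) N), (∀ v : ((Fin 2 × Fin (N + 1)) ⊕
      (Fin 2 × Fin (N + 1) × Fin (N + 1))) → K,
      (Function.Injective fun i => v (Sum.inl (1, i))) → MvPolynomial.aeval v q = (0 : K)) →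
      q = 0 := by
    intro q hq
    have : δ * q = 0 := by
      apply MvPolynomial.funext
      intro v
      rw [map_mul, map_zero]
      have hev' : ∀ p : CA K (Fin 2) N, MvPolynomial.eval v p = MvPolynomial.aeval v p := by
        intro p; rw [← MvPolynomial.coe_aeval_eq_eval]; rfl
      by_cases hv : Function.Injective fun i => v (Sum.inl (1, i))
      · rw [hev' q, hq v hv, mul_zero]
      · have : MvPolynomial.eval v δ = 0 := by
          unfold Function.Injective at hv
          push Not at hv
          obtain ⟨i, j, hij, hne⟩ := hv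
          rw [hδ, map_prod]
          apply Finset.prod_eq_zero (i := (i, j)) (Finset.mem_filter.2 ⟨Finset.mem_univ _, hne⟩)
          rw [map_sub, ca, ca, MvPolynomial.eval_X, MvPolynomial.eval_X]
          exact sub_eq_zero.2 hij
        rw [this, zero_mul]
    rcases mul_eq_zero.1 this with h1 | h1
    · exact absurd h1 hδ0
    · exact h1
  refine fun X => Pool.Agent.TH901.NC.scalar_of_generic (1 : Fin 2) (f := f) ?_ X
  refine ⟨G 0 0, ?_⟩
  rw [← hG]
  ext1 i j
  rw [← sub_eq_zero]
  apply key
  intro v hv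
  obtain ⟨c, hc⟩ := h (Matrix.of fun i j => v (Sum.inr (0, i, j))) _ hv
  rw [← hev v] at hc
  have e1 := congrFun (congrFun hc i) j
  have e2 := congrFun (congrFun hc 0) 0
  rw [AlgHom.mapMatrix_apply, Matrix.map_apply] at e1 e2
  rw [map_sub, e1]
  by_cases hij : i = j
  · subst hij
    rw [Matrix.scalar_apply, Matrix.scalar_apply, Matrix.diagonal_apply_eq,
      Matrix.diagonal_apply_eq, e2, Matrix.scalar_apply, Matrix.diagonal_apply_eq, sub_self]
  · rw [Matrix.scalar_apply, Matrix.scalar_apply, Matrix.diagonal_apply_ne _ hij,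
      Matrix.diagonal_apply_ne _ hij, map_zero, sub_self]

/-- `g([x, y], y)` -/
noncomputable def brk (g : FreeAlgebra K (Fin 2)) : FreeAlgebra K (Fin 2) :=
  FreeAlgebra.lift K ![FreeAlgebra.ι K 0 * FreeAlgebra.ι K 1 - FreeAlgebra.ι K 1 * FreeAlgebra.ι K 0,
    FreeAlgebra.ι K 1] g

lemma lift_brk {A : Type*} [Ring A] [Algebra K A] (X : Fin 2 → A) (g : FreeAlgebra K (Fin 2)) :
    FreeAlgebra.lift K X (brk g) = FreeAlgebra.lift K ![X 0 * X 1 - X 1 * X 0, X 1] g := by
  unfold brk
  rw [lift_subst]
  congr 2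
  funext i
  fin_cases i <;> simp

lemma diag_poly (d : Fin n → K) (hd : Function.Injective d) (e : Fin n → K) :
    ∃ p : Polynomial K, Polynomial.aeval (Matrix.diagonal d) p = Matrix.diagonal e := by
  classical
  refine ⟨Lagrange.interpolate Finset.univ d e, ?_⟩
  have h1 : ∀ p : Polynomial K, Polynomial.aeval (Matrix.diagonal d) p =
      Matrix.diagonal fun i => p.eval (d i) := by
    intro p
    have := Polynomial.aeval_algHom_apply (Matrix.diagonalAlgHom K (n := Fin n) (α := K)) d p
    change Polynomial.aeval (Matrix.diagonal d) p = _ at this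
    rw [this]
    change Matrix.diagonal (Polynomial.aeval d p) = _
    congr 1
    funext i
    have := Polynomial.aeval_algHom_apply (Pi.evalAlgHom K (fun _ : Fin n => K) i) d p
    change Polynomial.aeval (d i) p = (Polynomial.aeval d p) i at this
    rw [← this, Polynomial.coe_aeval_eq_eval]
  rw [h1]
  congr 1
  funext i
  exact Lagrange.eval_interpolate_at_node e (fun i _ j _ h => hd h) (Finset.mem_univ i)

/-- `g([x, y], y)` is `n`-central if `g` is `n`-central of least degree in `x`. -/
theorem brk_ncentral [Infinite K] (hn : n.Prime) (a : ℕ) (hmin : ∀ a' < a, ¬ ∃ b, Bi K n a' b)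
    (g : FreeAlgebra K (Fin 2)) (hg : IsNuCentral n n g) (hga : ∀ l, coef g l ≠ 0 → l.count 0 = a) :
    IsNuCentral n n (brk g) := by
  classical
  have hg' := (ncentral_iff hn g).1 hg
  rw [ncentral_iff hn]
  refine ⟨fun X => ?_, fun hsc => hg'.2 (diag_dense hn.ne_zero g fun X d hd => ?_)⟩
  · rw [map_pow, lift_brk, ← map_pow]
    exact hg'.1 _
  · obtain ⟨p, hp⟩ := diag_poly d hd (fun i => X i i)
    -- the off-diagonal part of `X` is a commutator
    set X'' : Matrix (Fin n) (Fin n) K := Matrix.of fun i j =>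
      if i = j then 0 else X i j / (d j - d i) with hX''
    have h1 : X'' * Matrix.diagonal d - Matrix.diagonal d * X'' + Matrix.diagonal (fun i => X i i) =
        X := by
      ext i j
      rw [Matrix.add_apply, Matrix.sub_apply, Matrix.mul_diagonal, Matrix.diagonal_mul]
      by_cases hij : i = j
      · subst hij
        simp [hX'']
      · rw [Matrix.diagonal_apply_ne _ hij, add_zero, hX'', Matrix.of_apply, if_neg hij]
        have : d j - d i ≠ 0 := sub_ne_zero.2 fun e => hij (hd e).symm
        field_simp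
    obtain ⟨c, hc⟩ := hsc ![X'', Matrix.diagonal d]
    rw [lift_brk] at hc
    obtain ⟨c', hc', -⟩ := x_shift hn a hmin g hg hga p
      ![X'' * Matrix.diagonal d - Matrix.diagonal d * X'', Matrix.diagonal d]
    simp only [Matrix.cons_val_zero, Matrix.cons_val_one] at hc hc'
    rw [hp, h1, hc, ← map_add] at hc'
    exact ⟨_, hc'⟩

end Pool.Agent.R683.NP
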