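import Mathlib

/-!
Comparison of coefficients in Laurent families of matrices over an infinite field.
-/

set_option autoImplicit false

namespace Pool.Agent.R683.NP

open Matrix

variable {K : Type*} [Field K] {n : ℕ}

lemma poly_zero [Infinite K] (P : Polynomial K) (h : ∀ s : K, s ≠ 0 → P.eval s = 0) : P = 0 := by
  apply Polynomial.eq_zero_of_infinite_isRoot
  refine Set.Infinite.mono (s := {s : K | s ≠ 0}) (fun s hs => h s hs) ?_
  exact (Set.finite_singleton (0 : K)).infinite_compl

lemma shift_exists (S : Finset ℤ) : ∃ L : ℕ, ∀ j ∈ S, 0 ≤ j + L := by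
  refine ⟨(S.sup fun j => (-j).toNat), fun j hj => ?_⟩
  have := Finset.le_sup (f := fun j : ℤ => (-j).toNat) hj
  omega

lemma cmp0 [Infinite K] (S : Finset ℤ) (a : ℤ → K)
    (h : ∀ s : K, s ≠ 0 → ∑ j ∈ S, s ^ j * a j = 0) (j : ℤ) (hj : j ∈ S) : a j = 0 := by
  classical
  obtain ⟨L, hL⟩ := shift_exists S
  set P : Polynomial K := ∑ i ∈ S, Polynomial.C (a i) * Polynomial.X ^ ((i + L).toNat) with hP
  have h0 : P = 0 := by
    apply poly_zero
    intro s hs
    rw [hP, Polynomial.eval_finsetSum]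
    have e : ∀ i ∈ S, (Polynomial.C (a i) * Polynomial.X ^ ((i + L).toNat)).eval s =
        s ^ (L : ℤ) * (s ^ i * a i) := by
      intro i hi
      rw [Polynomial.eval_mul, Polynomial.eval_C, Polynomial.eval_pow, Polynomial.eval_X,
        ← zpow_natCast, Int.toNat_of_nonneg (hL i hi), zpow_add₀ hs]
      ring
    rw [Finset.sum_congr rfl e, ← Finset.mul_sum, h s hs, mul_zero]
  have h1 : P.coeff ((j + L).toNat) = a j := by
    rw [hP, Polynomial.finsetSum_coeff, Finset.sum_eq_single j]
    · rw [Polynomial.coeff_C_mul, Polynomial.coeff_X_pow, if_pos rfl, mul_one]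
    · intro i hi hij
      rw [Polynomial.coeff_C_mul, Polynomial.coeff_X_pow, if_neg, mul_zero]
      intro e
      have := hL i hi
      have := hL j hj
      omega
    · intro h; exact absurd hj h
  rw [← h1, h0, Polynomial.coeff_zero]

lemma cmp [Infinite K] (S : Finset ℤ) (A : ℤ → Matrix (Fin n) (Fin n) K)
    (h : ∀ s : K, s ≠ 0 → ∑ j ∈ S, s ^ j • A j = 0) (j : ℤ) (hj : j ∈ S) : A j = 0 := by
  ext b c
  rw [Matrix.zero_apply]
  refine cmp0 S (fun i => A i b c) (fun s hs => ?_) j hj
  have e := congrFun (congrFun (h s hs) b) c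
  rw [Matrix.sum_apply] at e
  simpa using e

/-- The evaluation of a polynomial matrix. -/
lemma limit [Infinite K] (P : Matrix (Fin n) (Fin n) (Polynomial K)) (Y : Matrix (Fin n) (Fin n) K)
    (ν : ℕ)
    (h : ∀ s : K, s ≠ 0 → ((Polynomial.evalRingHom s).mapMatrix P) ^ ν * Y =
      Y * ((Polynomial.evalRingHom s).mapMatrix P) ^ ν) :
    ((Polynomial.evalRingHom 0).mapMatrix P) ^ ν * Y =
      Y * ((Polynomial.evalRingHom 0).mapMatrix P) ^ ν := by
  have hY : ∀ s : K, (Polynomial.evalRingHom s).mapMatrix (Y.map Polynomial.C) = Y := by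
    intro s
    ext b c
    simp
  have hD : P ^ ν * Y.map Polynomial.C - Y.map Polynomial.C * P ^ ν = 0 := by
    ext1 b c
    rw [Matrix.zero_apply]
    apply poly_zero
    intro s hs
    have e : (Polynomial.evalRingHom s).mapMatrix
        (P ^ ν * Y.map Polynomial.C - Y.map Polynomial.C * P ^ ν) = 0 := by
      rw [map_sub, map_mul, map_mul, map_pow, hY, h s hs, sub_self]
    have e2 := congrFun (congrFun e b) c
    simpa using e2
  have e : (Polynomial.evalRingHom 0).mapMatrix
      (P ^ ν * Y.map Polynomial.C - Y.map Polynomial.C * P ^ ν) = 0 := by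
    rw [hD, map_zero]
  rw [map_sub, map_mul, map_mul, map_pow, hY] at e
  exact sub_eq_zero.mp e

lemma top_pow [Infinite K] (S : Finset ℤ) (A : ℤ → Matrix (Fin n) (Fin n) K) (N : ℤ)
    (hN : N ∈ S) (hmax : ∀ j ∈ S, j ≤ N) (Y : Matrix (Fin n) (Fin n) K) (ν : ℕ)
    (h : ∀ s : K, s ≠ 0 → (∑ j ∈ S, s ^ j • A j) ^ ν * Y = Y * (∑ j ∈ S, s ^ j • A j) ^ ν) :
    (A N) ^ ν * Y = Y * (A N) ^ ν := by
  classical
  set P : Matrix (Fin n) (Fin n) (Polynomial K) :=
    ∑ j ∈ S, (Polynomial.X ^ ((N - j).toNat) : Polynomial K) • (A j).map Polynomial.C with hP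
  have hev : ∀ s : K, (Polynomial.evalRingHom s).mapMatrix P =
      ∑ j ∈ S, s ^ ((N - j).toNat) • A j := by
    intro s
    rw [hP, map_sum]
    refine Finset.sum_congr rfl fun j _ => ?_
    ext b c
    simp
    ring
  have h0 : (Polynomial.evalRingHom (0 : K)).mapMatrix P = A N := by
    rw [hev, Finset.sum_eq_single N]
    · simp
    · intro j hj hjN
      have := hmax j hj
      rw [zero_pow, zero_smul]
      omega
    · intro h; exact absurd hN h
  rw [← h0]
  apply limit
  intro s hs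
  have e : (Polynomial.evalRingHom s).mapMatrix P = s ^ N • ∑ j ∈ S, (s⁻¹) ^ j • A j := by
    rw [hev, Finset.smul_sum]
    refine Finset.sum_congr rfl fun j hj => ?_
    have := hmax j hj
    rw [smul_smul, ← zpow_natCast, Int.toNat_of_nonneg (by omega), _root_.inv_zpow, ← _root_.zpow_neg,
      ← zpow_add₀ hs, sub_eq_add_neg]
  rw [e, smul_pow, smul_mul_assoc, mul_smul_comm, h _ (inv_ne_zero hs)]

end Pool.Agent.R683.NP
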