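import Mathlib
import Pool.Agent.H552R3.PC.Quant3
import Pool.Agent.TH82.NC.Dom
import Pool.Agent.Results.MP_5d2531_al.BlockTriangular

/-!
`n`-central polynomials, `n` prime: a criterion, and comparison of coefficients of families.
-/

set_option autoImplicit false

namespace Pool.Agent.R683.NP

open Matrix Pool.Agent.H552R3.PC Pool.Agent.TH82.NC
open Pool.Agent.Results.MP_5d2531_al.BlockTriangular

variable {K : Type*} [Field K] {σ : Type*} {n : ℕ}

lemma scalar_comm (c : K) (Y : Matrix (Fin n) (Fin n) K) :
    Matrix.scalar (Fin n) c * Y = Y * Matrix.scalar (Fin n) c :=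
  (Matrix.scalar_commute c (fun _ => Commute.all _ _) Y).eq

/-- For a prime `n`: `f` is `n`-central iff `f ^ n` is scalar valued and `f` is not. -/
theorem ncentral_iff [Infinite K] (hn : n.Prime) (f : FreeAlgebra K σ) :
    IsNuCentral n n f ↔ ScalarValued n (f ^ n) ∧ ¬ ScalarValued n f := by
  constructor
  · rintro ⟨h1, ⟨h2, X0, hX0⟩, h3⟩
    refine ⟨h2, fun h4 => ?_⟩
    have h5 : IsCentral n (f ^ 1) := by
      rw [pow_one]
      refine ⟨h4, X0, fun hz => hX0 ?_⟩
      rw [map_pow, hz, zero_pow hn.ne_zero]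
    have := h3 1 one_pos h5
    have := hn.two_le
    omega
  · rintro ⟨h2, h4⟩
    have hex : ∃ X : σ → Matrix (Fin n) (Fin n) K, FreeAlgebra.lift K X (f ^ n) ≠ 0 := by
      by_contra hcon
      push Not at hcon
      exact h4 fun X => ⟨0, by rw [vanish_of_pow n f n hcon X, map_zero]⟩
    refine ⟨hn.pos, ⟨h2, hex⟩, fun μ hμ hc => ?_⟩
    by_contra hlt
    push Not at hlt
    apply h4
    intro X
    apply scalar_of_comm
    refine generic (f ^ n) f ?_ ?_ X
    · obtain ⟨X0, hX0⟩ := hex
      refine ⟨X0, ?_⟩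
      obtain ⟨c, hc⟩ := h2 X0
      rw [hc] at hX0 ⊢
      have hc0 : c ≠ 0 := fun e => hX0 (by rw [e, map_zero])
      rw [Matrix.scalar_apply, Matrix.det_diagonal, Finset.prod_const]
      exact pow_ne_zero _ hc0
    · intro X hdet Y
      set M := FreeAlgebra.lift K X f with hM
      have hMn : ∀ k : ℕ, M ^ (n * k) * Y = Y * M ^ (n * k) := by
        intro k
        obtain ⟨c, hc⟩ := h2 X
        rw [map_pow, ← hM] at hc
        rw [pow_mul, hc, ← map_pow]
        exact scalar_comm _ _
      have hMμ : ∀ k : ℕ, M ^ (μ * k) * Y = Y * M ^ (μ * k) := by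
        intro k
        obtain ⟨c, hc'⟩ := hc.1 X
        rw [map_pow, ← hM] at hc'
        rw [pow_mul, hc', ← map_pow]
        exact scalar_comm _ _
      have hu : IsUnit M := by
        rw [map_pow, ← hM, Matrix.det_pow] at hdet
        rw [Matrix.isUnit_iff_isUnit_det]
        exact isUnit_iff_ne_zero.mpr fun e => hdet (by rw [e, zero_pow hn.ne_zero])
      rcases Nat.lt_or_ge 1 μ with h1 | h1
      · have hco : Nat.Coprime n μ := ((Nat.Prime.coprime_iff_not_dvd hn).2 (Nat.not_dvd_of_pos_of_lt hμ hlt))
        obtain ⟨m, -, hm⟩ := Nat.exists_mul_mod_eq_one_of_coprime hco h1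
        have hm' : n * m = μ * (n * m / μ) + 1 := by
          have := Nat.div_add_mod (n * m) μ
          rw [hm] at this
          exact this.symm
        have e := hMn m
        rw [hm', pow_succ] at e
        have e2 : M ^ (μ * (n * m / μ)) * (M * Y) = M ^ (μ * (n * m / μ)) * (Y * M) := by
          rw [← mul_assoc, e, ← mul_assoc, ← mul_assoc, hMμ]
        exact (hu.pow _).mul_left_cancel e2
      · have : μ = 1 := by omega
        subst this
        have := hMμ 1
        simpa using this

end Pool.Agent.R683.NP
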