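import Pool.Agent.R676.NC.Comp
import Pool.Agent.R683.NP.Key
import Pool.Agent.R683.NP.Fam

/-!
The leading component of an `n`-central polynomial.
-/

set_option autoImplicit false

namespace Pool.Agent.R683.NP

open Matrix Pool.Agent.H552R3.PC Pool.Agent.TH82.NC Pool.Agent.R676.NC
open Pool.Agent.Results.MP_5d2531_al.BlockTriangular

variable {K : Type*} [Field K] {σ : Type*} {n : ℕ}

/-- The component of weight `j` of `f`: the part of `f` formed by the words `x_{i_1} ⋯ x_{i_k}` with
`w i_1 + ⋯ + w i_k = j`. -/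
noncomputable def comp (w : σ → ℤ) (j : ℤ) (f : FreeAlgebra K σ) : FreeAlgebra K σ :=
  open Classical in
  ∑ l ∈ supp f with (l.map w).sum = j, coef f l • (l.map (FreeAlgebra.ι K)).prod

lemma coef_add (f g : FreeAlgebra K σ) (l : List σ) : coef (f + g) l = coef f l + coef g l := by
  unfold coef
  rw [map_add, MonoidAlgebra.coeff_add, Finsupp.add_apply]

lemma coef_smul (c : K) (f : FreeAlgebra K σ) (l : List σ) : coef (c • f) l = c * coef f l := by
  unfold coef
  rw [map_smul, MonoidAlgebra.coeff_smul, Finsupp.smul_apply, smul_eq_mul]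

lemma coef_zero (l : List σ) : coef (0 : FreeAlgebra K σ) l = 0 := by
  have := coef_smul (0 : K) (0 : FreeAlgebra K σ) l
  simpa using this

lemma coef_sum {ι : Type*} (s : Finset ι) (f : ι → FreeAlgebra K σ) (l : List σ) :
    coef (∑ i ∈ s, f i) l = ∑ i ∈ s, coef (f i) l := by
  classical
  induction s using Finset.induction_on with
  | empty => simp [coef_zero]
  | insert a s ha ih => rw [Finset.sum_insert ha, Finset.sum_insert ha, coef_add, ih]

lemma equiv_word (l : List σ) :
    FreeAlgebra.equivMonoidAlgebraFreeMonoid ((l.map (FreeAlgebra.ι K)).prod) =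
      MonoidAlgebra.single (FreeMonoid.ofList l) (1 : K) := by
  rw [← AlgEquiv.eq_symm_apply]
  have h := lift_symm_single (K := K) (FreeAlgebra.ι K (X := σ)) (FreeMonoid.ofList l) 1
  have h2 : FreeAlgebra.lift K (FreeAlgebra.ι K (X := σ)) = AlgHom.id K _ := by
    apply FreeAlgebra.hom_ext
    funext i
    simp
  rw [h2, one_smul] at h
  exact h.symm

lemma coef_word [DecidableEq σ] (l l' : List σ) :
    coef ((l.map (FreeAlgebra.ι K)).prod) l' = if l = l' then 1 else 0 := by
  classical
  unfold coef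
  rw [equiv_word, MonoidAlgebra.coeff_single, Finsupp.single_apply]
  congr 1

lemma coef_comp (w : σ → ℤ) (j : ℤ) (f : FreeAlgebra K σ) (l : List σ) :
    coef (comp w j f) l = if (l.map w).sum = j then coef f l else 0 := by
  classical
  unfold comp
  rw [coef_sum]
  simp_rw [coef_smul, coef_word]
  by_cases hl : coef f l = 0
  · rw [hl, ite_self]
    apply Finset.sum_eq_zero
    intro l' _
    by_cases h : l' = l
    · rw [h, hl, zero_mul]
    · rw [if_neg h, mul_zero]
  · by_cases h : (l.map w).sum = j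
    · rw [if_pos h, Finset.sum_eq_single l]
      · simp
      · intro l' _ h'
        rw [if_neg h', mul_zero]
      · intro h'
        exact absurd (Finset.mem_filter.2 ⟨mem_supp.2 hl, h⟩) h'
    · rw [if_neg h]
      apply Finset.sum_eq_zero
      intro l' h'
      rw [if_neg, mul_zero]
      rintro rfl
      exact h (Finset.mem_filter.1 h').2

lemma lift_comp {A : Type*} [Ring A] [Algebra K A] (w : σ → ℤ) (j : ℤ) (f : FreeAlgebra K σ)
    (X : σ → A) [DecidablePred fun l : List σ => (l.map w).sum = j] :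
    FreeAlgebra.lift K X (comp w j f) =
      ∑ l ∈ supp f with (l.map w).sum = j, coef f l • (l.map X).prod := by
  unfold comp
  rw [map_sum]
  refine Finset.sum_congr (by congr) fun l _ => ?_
  rw [map_smul, map_list_prod, List.map_map]
  congr 2
  apply List.map_congr_left
  intro i _
  simp

/-- the weights which occur -/
noncomputable def wts (w : σ → ℤ) (f : FreeAlgebra K σ) : Finset ℤ :=
  (supp f).image fun l => (l.map w).sum

lemma comp_of_not_mem (w : σ → ℤ) (j : ℤ) (f : FreeAlgebra K σ) (h : j ∉ wts w f) :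
    comp w j f = 0 := by
  classical
  unfold comp
  apply Finset.sum_eq_zero
  intro l hl
  obtain ⟨h1, h2⟩ := Finset.mem_filter.1 hl
  exact absurd (Finset.mem_image.2 ⟨l, h1, h2⟩) h

lemma word_scale {A : Type*} [Ring A] [Algebra K A] (w : σ → ℤ) (X : σ → A) (s : K) (hs : s ≠ 0)
    (l : List σ) : (l.map fun i => s ^ w i • X i).prod = s ^ (l.map w).sum • (l.map X).prod := by
  induction l with
  | nil => simp
  | cons a l ih =>
    rw [List.map_cons, List.prod_cons, ih, List.map_cons, List.sum_cons, List.map_cons,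
      List.prod_cons, smul_mul_smul_comm, zpow_add₀ hs]

lemma lift_scale {A : Type*} [Ring A] [Algebra K A] (w : σ → ℤ) (f : FreeAlgebra K σ)
    (X : σ → A) (s : K) (hs : s ≠ 0) :
    FreeAlgebra.lift K (fun i => s ^ w i • X i) f =
      ∑ j ∈ wts w f, s ^ j • FreeAlgebra.lift K X (comp w j f) := by
  classical
  rw [lift_eq]
  simp_rw [lift_comp w _ f X, word_scale w X s hs]
  unfold wts
  rw [← Finset.sum_fiberwise_of_maps_to (g := fun l : List σ => (l.map w).sum)
    (fun l hl => Finset.mem_image.2 ⟨l, hl, rfl⟩)]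
  refine Finset.sum_congr rfl fun j _ => ?_
  rw [Finset.smul_sum]
  refine Finset.sum_congr rfl fun l hl => ?_
  rw [(Finset.mem_filter.1 hl).2, smul_comm]

lemma lift_sum_comp {A : Type*} [Ring A] [Algebra K A] (w : σ → ℤ) (f : FreeAlgebra K σ)
    (X : σ → A) :
    FreeAlgebra.lift K X f = ∑ j ∈ wts w f, FreeAlgebra.lift K X (comp w j f) := by
  have := lift_scale w f X (1 : K) one_ne_zero
  simpa using this

theorem trace_zero [Infinite K] (hn : n.Prime) (hnK : (n : K) ≠ 0) (f : FreeAlgebra K σ)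
    (hf : IsNuCentral n n f) (X : σ → Matrix (Fin n) (Fin n) K) :
    (FreeAlgebra.lift K X f).trace = 0 := by
  obtain ⟨h1, h2⟩ := (ncentral_iff hn f).1 hf
  have hpow : ∀ X : σ → Matrix (Fin n) (Fin n) K, ∀ Z : Matrix (Fin n) (Fin n) K,
      FreeAlgebra.lift K X (f ^ n) * Z = Z * FreeAlgebra.lift K X (f ^ n) := by
    intro X Z
    obtain ⟨c, hc⟩ := h1 X
    rw [hc]
    exact scalar_comm c Z
  have hns : ∃ X : σ → Matrix (Fin n) (Fin n) K, ∃ Z : Matrix (Fin n) (Fin n) K,
      FreeAlgebra.lift K X f * Z ≠ Z * FreeAlgebra.lift K X f := by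
    by_contra hcon
    push Not at hcon
    exact h2 fun X => scalar_of_comm _ (hcon X)
  obtain ⟨c, hc⟩ := charpoly_of_ncentral hn hnK f hpow hns X
  have : Nonempty (Fin n) := ⟨⟨0, hn.pos⟩⟩
  have h2n := hn.two_le
  rw [Matrix.trace_eq_neg_charpoly_coeff, hc, Fintype.card_fin, Polynomial.coeff_sub,
    Polynomial.coeff_X_pow, if_neg (by omega), Polynomial.coeff_C, if_neg (by omega)]
  simp

lemma scalar_trace (hnK : (n : K) ≠ 0) (M : Matrix (Fin n) (Fin n) K)
    (h : ∃ c : K, M = Matrix.scalar (Fin n) c) (ht : M.trace = 0) : M = 0 := by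
  obtain ⟨c, rfl⟩ := h
  have : (n : K) * c = 0 := by
    rw [← ht, Matrix.scalar_apply, Matrix.trace_diagonal]
    simp
  rcases mul_eq_zero.1 this with h | h
  · exact absurd h hnK
  · rw [h, map_zero]

/-- The leading component of an `n`-central polynomial, for each weight, is `n`-central. -/
theorem lead [Infinite K] (hn : n.Prime) (w : σ → ℤ) (f : FreeAlgebra K σ)
    (hf : IsNuCentral n n f) :
    ∃ N : ℤ, IsNuCentral n n (comp w N f) ∧ ∀ j : ℤ, N < j → ScalarValued n (comp w j f) ∧
      ((n : K) ≠ 0 → ∀ X : σ → Matrix (Fin n) (Fin n) K, FreeAlgebra.lift K X (comp w j f) = 0) := by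
  classical
  obtain ⟨h1, h2⟩ := (ncentral_iff hn f).1 hf
  set S := wts w f with hS
  have htr : (n : K) ≠ 0 → ∀ j : ℤ, ∀ X : σ → Matrix (Fin n) (Fin n) K,
      (FreeAlgebra.lift K X (comp w j f)).trace = 0 := by
    intro hnK j X
    by_cases hj : j ∈ S
    · refine cmp0 S (fun j => (FreeAlgebra.lift K X (comp w j f)).trace) (fun s hs => ?_) j hj
      have e := trace_zero hn hnK f hf (fun i => s ^ w i • X i)
      rw [lift_scale w f X s hs, Matrix.trace_sum] at e
      simpa [Matrix.trace_smul] using e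
    · rw [comp_of_not_mem w j f hj, map_zero, Matrix.trace_zero]
  have hvan : (n : K) ≠ 0 → ∀ j : ℤ, ScalarValued n (comp w j f) →
      ∀ X : σ → Matrix (Fin n) (Fin n) K, FreeAlgebra.lift K X (comp w j f) = 0 :=
    fun hnK j hj X => scalar_trace hnK _ (hj X) (htr hnK j X)
  have hex : (S.filter fun j => ¬ ScalarValued n (comp w j f)).Nonempty := by
    by_contra hcon
    rw [Finset.not_nonempty_iff_eq_empty, Finset.filter_eq_empty_iff] at hcon
    push Not at hcon
    apply h2
    intro X
    choose c hc using fun j (hj : j ∈ S) => hcon hj X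
    refine ⟨∑ j ∈ S.attach, c j.1 j.2, ?_⟩
    rw [lift_sum_comp w f X, map_sum, ← Finset.sum_attach]
    exact Finset.sum_congr rfl fun j _ => hc j.1 j.2
  set N := (S.filter fun j => ¬ ScalarValued n (comp w j f)).max' hex with hNdef
  have hN := Finset.mem_filter.1 (Finset.max'_mem _ hex)
  rw [← hNdef] at hN
  have hbig : ∀ j : ℤ, N < j → ScalarValued n (comp w j f) := by
    intro j hj
    by_contra hcon
    by_cases hjS : j ∈ S
    · have hm : j ∈ S.filter fun j => ¬ ScalarValued n (comp w j f) :=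
        Finset.mem_filter.2 ⟨hjS, hcon⟩
      have := Finset.le_max' _ j hm
      rw [← hNdef] at this
      omega
    · apply hcon
      intro X
      exact ⟨0, by rw [comp_of_not_mem w j f hjS, map_zero, map_zero]⟩
  refine ⟨N, ?_, fun j hj => ⟨hbig j hj, fun hnK => hvan hnK j (hbig j hj)⟩⟩
  rw [ncentral_iff hn]
  refine ⟨fun X => ?_, hN.2⟩
  apply scalar_of_comm
  intro Y
  rw [map_pow]
  refine top_pow (S.filter (· ≤ N)) (fun j => FreeAlgebra.lift K X (comp w j f)) N
    (Finset.mem_filter.2 ⟨hN.1, le_refl _⟩) (fun j hj => (Finset.mem_filter.1 hj).2) Y n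
    fun s hs => ?_
  have hsum : FreeAlgebra.lift K (fun i => s ^ w i • X i) f =
      ∑ j ∈ S.filter (· ≤ N), s ^ j • FreeAlgebra.lift K X (comp w j f) +
      ∑ j ∈ S.filter (fun j => ¬ j ≤ N), s ^ j • FreeAlgebra.lift K X (comp w j f) := by
    rw [lift_scale w f X s hs, Finset.sum_filter_add_sum_filter_not]
  obtain ⟨c, hc⟩ : ∃ c : K, ∑ j ∈ S.filter (fun j => ¬ j ≤ N),
      s ^ j • FreeAlgebra.lift K X (comp w j f) = Matrix.scalar (Fin n) c := by
    have hsc : ∀ j ∈ S.filter (fun j => ¬ j ≤ N), ∃ c : K,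
        s ^ j • FreeAlgebra.lift K X (comp w j f) = Matrix.scalar (Fin n) c := by
      intro j hj
      obtain ⟨c, hc⟩ := hbig j (not_le.1 (Finset.mem_filter.1 hj).2) X
      refine ⟨s ^ j * c, ?_⟩
      rw [hc]
      ext a b
      simp [Matrix.diagonal_apply]
    choose c hc using hsc
    refine ⟨∑ j ∈ (S.filter fun j => ¬ j ≤ N).attach, c j.1 j.2, ?_⟩
    rw [map_sum, ← Finset.sum_attach]
    exact Finset.sum_congr rfl fun j _ => hc j.1 j.2
  obtain ⟨d, hd⟩ := h1 (fun i => s ^ w i • X i)
  rw [map_pow, hsum, hc] at hd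
  by_cases hnK : (n : K) = 0
  · have : Fact n.Prime := ⟨hn⟩
    have : CharP K n := by
      have h := CharP.charP_iff_prime_eq_zero hn (R := K)
      exact h.2 hnK
    have : Nonempty (Fin n) := ⟨⟨0, hn.pos⟩⟩
    rw [add_pow_char_of_commute n (show Commute _ _ from (scalar_comm c _).symm)] at hd
    have e : (∑ j ∈ S.filter (· ≤ N), s ^ j • FreeAlgebra.lift K X (comp w j f)) ^ n =
        Matrix.scalar (Fin n) (d - c ^ n) := by
      rw [map_sub, ← hd, map_pow, add_sub_cancel_right]
    rw [e]
    exact scalar_comm _ _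
  · have hc0 : Matrix.scalar (Fin n) c = 0 := by
      rw [← hc]
      apply Finset.sum_eq_zero
      intro j hj
      rw [hvan hnK j (hbig j (not_le.1 (Finset.mem_filter.1 hj).2)) X, smul_zero]
    rw [hc0, add_zero] at hd
    rw [hd]
    exact scalar_comm _ _

end Pool.Agent.R683.NP
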