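import Pool.Agent.R683.NP.Key

/-!
Specialization of the coefficients of `n`-central polynomials.
-/

set_option autoImplicit false

namespace Pool.Agent.R683.NP

open Matrix Pool.Agent.H552R3.PC Pool.Agent.TH82.NC
open Pool.Agent.Results.MP_5d2531_al.BlockTriangular

variable {σ : Type*} {n : ℕ} {R : Type*} [CommRing R]

/-- The polynomial `∑ φ(c_l) l` over the words `l ∈ S`. -/
noncomputable def pol {K : Type*} [Field K] (φ : R →+* K) (S : Finset (List σ)) (c : List σ → R) :
    FreeAlgebra K σ :=
  ∑ l ∈ S, φ (c l) • (l.map (FreeAlgebra.ι K)).prod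

lemma lift_pol {K : Type*} [Field K] (φ : R →+* K) (S : Finset (List σ)) (c : List σ → R)
    {A : Type*} [Ring A] [Algebra K A] (X : σ → A) :
    FreeAlgebra.lift K X (pol φ S c) = ∑ l ∈ S, φ (c l) • (l.map X).prod := by
  unfold pol
  rw [map_sum]
  refine Finset.sum_congr rfl fun l _ => ?_
  rw [map_smul, map_list_prod, List.map_map]
  congr 2
  apply List.map_congr_left
  intro i _
  simp

/-- the generic value -/
noncomputable def gv (n : ℕ) (S : Finset (List σ)) (c : List σ → R) :
    Matrix (Fin n) (Fin n) (MvPolynomial (σ × Fin n × Fin n) R) :=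
  ∑ l ∈ S, (MvPolynomial.C (c l) : MvPolynomial (σ × Fin n × Fin n) R) •
    (l.map fun i => (Matrix.of fun a b => MvPolynomial.X (i, a, b) :
      Matrix (Fin n) (Fin n) (MvPolynomial (σ × Fin n × Fin n) R))).prod

lemma map_gv {K : Type*} [Field K] (φ : R →+* K) (S : Finset (List σ)) (c : List σ → R)
    (x : σ × Fin n × Fin n → K) :
    (MvPolynomial.eval₂Hom φ x).mapMatrix (gv n S c) =
      FreeAlgebra.lift K (fun i => Matrix.of fun a b => x (i, a, b)) (pol φ S c) := by
  rw [lift_pol, gv, map_sum]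
  refine Finset.sum_congr rfl fun l _ => ?_
  have h1 : ∀ (r : R) (M : Matrix (Fin n) (Fin n) (MvPolynomial (σ × Fin n × Fin n) R)),
      (MvPolynomial.eval₂Hom φ x).mapMatrix
        ((MvPolynomial.C r : MvPolynomial (σ × Fin n × Fin n) R) • M) =
        φ r • (MvPolynomial.eval₂Hom φ x).mapMatrix M := by
    intro r M
    ext a b
    simp
  rw [h1, map_list_prod, List.map_map]
  congr 2
  apply List.map_congr_left
  intro i _
  ext a b
  simp

/-- the commutator with a matrix unit -/
def Dm {B : Type*} [CommRing B] (M : Matrix (Fin n) (Fin n) B) (a b : Fin n) :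
    Matrix (Fin n) (Fin n) B :=
  M * Matrix.single a b 1 - Matrix.single a b 1 * M

lemma map_Dm {B C : Type*} [CommRing B] [CommRing C] (φ : B →+* C) (M : Matrix (Fin n) (Fin n) B)
    (a b : Fin n) : φ.mapMatrix (Dm M a b) = Dm (φ.mapMatrix M) a b := by
  unfold Dm
  have : φ.mapMatrix (Matrix.single a b (1 : B)) = Matrix.single a b 1 := by
    ext i j
    simp [Matrix.single_apply]
  rw [map_sub, map_mul, map_mul, this]

lemma scalar_iff {K : Type*} [Field K] (M : Matrix (Fin n) (Fin n) K) :
    (∃ c : K, M = Matrix.scalar (Fin n) c) ↔ ∀ a b, Dm M a b = 0 := by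
  constructor
  · rintro ⟨c, rfl⟩ a b
    unfold Dm
    rw [scalar_comm, sub_self]
  · intro h
    obtain ⟨c, hc⟩ := Matrix.mem_range_scalar_iff_commute_single'.mpr
      (fun i j => (sub_eq_zero.1 (h i j)).symm)
    exact ⟨c, hc.symm⟩

lemma generic_zero {K : Type*} [Field K] [Infinite K] (α : R →+* K) (hα : Function.Injective α)
    (S : Finset (List σ)) (c : List σ → R) (ν : ℕ)
    (h : ScalarValued n ((pol α S c) ^ ν)) (a b : Fin n) : Dm ((gv n S c) ^ ν) a b = 0 := by
  ext1 i j
  rw [Matrix.zero_apply]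
  apply MvPolynomial.map_injective α hα
  rw [map_zero]
  apply MvPolynomial.funext
  intro x
  rw [map_zero, MvPolynomial.eval_map]
  have e1 : (MvPolynomial.eval₂Hom α x).mapMatrix (Dm ((gv n S c) ^ ν) a b) = 0 := by
    rw [map_Dm, map_pow, map_gv, ← map_pow]
    exact (scalar_iff _).1 (h _) a b
  exact congrFun (congrFun e1 i) j

lemma special_scalar (S : Finset (List σ)) (c : List σ → R) (ν : ℕ)
    (h : ∀ a b : Fin n, Dm ((gv n S c) ^ ν) a b = 0) {k : Type*} [Field k] (β : R →+* k) :
    ScalarValued n ((pol β S c) ^ ν) := by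
  intro X
  rw [scalar_iff]
  intro a b
  have e1 := congrArg (MvPolynomial.eval₂Hom β (fun p => X p.1 p.2.1 p.2.2)).mapMatrix (h a b)
  rw [map_Dm, map_pow, map_gv, ← map_pow, map_zero] at e1
  exact e1

/-- `n`-centrality is inherited by specializations, and it is an open condition. -/
theorem special {K : Type*} [Field K] [Infinite K] (hn : n.Prime) (α : R →+* K)
    (hα : Function.Injective α) (S : Finset (List σ)) (c : List σ → R)
    (h : IsNuCentral n n (pol α S c)) :
    ∃ r : R, r ≠ 0 ∧ ∀ (k : Type*) [Field k] [Infinite k] (β : R →+* k),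
      (IsNuCentral n n (pol β S c) ∨ ScalarValued n (pol β S c)) ∧
      (β r ≠ 0 → IsNuCentral n n (pol β S c)) := by
  obtain ⟨h1, h2⟩ := (ncentral_iff hn _).1 h
  have h3 := generic_zero α hα S c n h1
  obtain ⟨a, b, hab⟩ : ∃ a b : Fin n, Dm (gv n S c) a b ≠ 0 := by
    by_contra hcon
    push Not at hcon
    apply h2
    have := special_scalar S c 1 (by simpa using hcon) α
    simpa using this
  obtain ⟨i, j, hij⟩ : ∃ i j, Dm (gv n S c) a b i j ≠ 0 := by
    by_contra hcon
    push Not at hcon
    exact hab (by ext1 i j; exact hcon i j)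
  obtain ⟨m, hm⟩ := MvPolynomial.ne_zero_iff.1 hij
  refine ⟨_, hm, fun k _ _ β => ?_⟩
  have h4 : ScalarValued n ((pol β S c) ^ n) := special_scalar S c n h3 β
  have h5 : β (MvPolynomial.coeff m (Dm (gv n S c) a b i j)) ≠ 0 → ¬ ScalarValued n (pol β S c) := by
    intro hr hsc
    apply hr
    have h6 : MvPolynomial.map β (Dm (gv n S c) a b i j) = 0 := by
      apply MvPolynomial.funext
      intro x
      rw [map_zero, MvPolynomial.eval_map]
      have e1 : (MvPolynomial.eval₂Hom β x).mapMatrix (Dm (gv n S c) a b) = 0 := by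
        rw [map_Dm, map_gv]
        exact (scalar_iff _).1 (hsc _) a b
      exact congrFun (congrFun e1 i) j
    rw [← MvPolynomial.coeff_map, h6, MvPolynomial.coeff_zero]
  refine ⟨?_, fun hr => (ncentral_iff hn _).2 ⟨h4, h5 hr⟩⟩
  by_cases hsc : ScalarValued n (pol β S c)
  · exact Or.inr hsc
  · exact Or.inl ((ncentral_iff hn _).2 ⟨h4, hsc⟩)

end Pool.Agent.R683.NP
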