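import Mathlib

/-!
Specialization of finitely generated domains.
-/

set_option autoImplicit false

namespace Pool.Agent.R683.NP

/-- A finitely generated algebra over a field has points over each algebraically closed extension. -/
lemma exists_point (κ A k : Type*) [Field κ] [CommRing A] [Nontrivial A] [Algebra κ A]
    [Algebra.FiniteType κ A] [Field k] [IsAlgClosed k] [Algebra κ k] : Nonempty (A →ₐ[κ] k) := by
  obtain ⟨m, hm⟩ := Ideal.exists_maximal A
  let _ : Field (A ⧸ m) := Ideal.Quotient.field m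
  have h1 : Algebra.FiniteType κ (A ⧸ m) :=
    Algebra.FiniteType.of_surjective (Ideal.Quotient.mkₐ κ m) (Ideal.Quotient.mkₐ_surjective κ m)
  have h2 : Module.Finite κ (A ⧸ m) := finite_of_finite_type_of_isJacobsonRing κ (A ⧸ m)
  exact ⟨(IsAlgClosed.lift (R := κ) (S := A ⧸ m) (M := k)).comp (Ideal.Quotient.mkₐ κ m)⟩

lemma finiteType_adjoin {κ K : Type*} [CommRing κ] [CommRing K] [Algebra κ K] (T : Finset K) :
    Algebra.FiniteType κ (Algebra.adjoin κ (T : Set K)) :=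
  (Subalgebra.fg_iff_finiteType _).1 ⟨T, rfl⟩

/-- Almost all primes are not invertible in a finitely generated subring of a field of
characteristic zero. -/
lemma primes {K : Type*} [Field K] [CharZero K] (T : Finset K) :
    ∃ N : ℕ, N ≠ 0 ∧ ∀ p : ℕ, p.Prime → ¬ p ∣ N →
      ¬ IsUnit ((p : ℕ) : Algebra.adjoin ℤ (T : Set K)) := by
  classical
  have : Algebra.FiniteType ℚ (Algebra.adjoin ℚ (T : Set K)) := finiteType_adjoin T
  obtain ⟨ψ⟩ := exists_point ℚ (Algebra.adjoin ℚ (T : Set K)) (AlgebraicClosure ℚ)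
  have hle : Algebra.adjoin ℤ (T : Set K) ≤ (Algebra.adjoin ℚ (T : Set K)).restrictScalars ℤ :=
    Algebra.adjoin_le Algebra.subset_adjoin
  set φ : Algebra.adjoin ℤ (T : Set K) →+* AlgebraicClosure ℚ :=
    ψ.toRingHom.comp (Subalgebra.inclusion hle).toRingHom with hφ
  have halg : Algebra.IsAlgebraic ℤ (AlgebraicClosure ℚ) := by
    have : Algebra.IsAlgebraic ℤ ℚ := IsLocalization.isAlgebraic ℚ (nonZeroDivisors ℤ)
    have : Algebra.IsAlgebraic ℚ (AlgebraicClosure ℚ) := by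
      have h2 := AlgebraicClosure.isAlgebraic ℚ
      have e : (DivisionRing.toRatAlgebra : Algebra ℚ (AlgebraicClosure ℚ)) =
        AlgebraicClosure.instAlgebra ℚ := Subsingleton.elim _ _
      rw [e]
      exact h2
    exact Algebra.IsAlgebraic.trans ℤ ℚ _
  obtain ⟨y, hy0, hy⟩ := Algebra.IsAlgebraic.exists_integral_multiples ℤ
    (T.attach.image fun t : {x // x ∈ T} => φ ⟨(t : K), Algebra.subset_adjoin (Finset.mem_coe.2 t.2)⟩)
  -- the subalgebra of the elements with denominators a power of `y`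
  have hall : ∀ u : Algebra.adjoin ℤ (T : Set K), ∃ d : ℕ, IsIntegral ℤ ((y : AlgebraicClosure ℚ) ^ d
      * φ u) := by
    rintro ⟨u, hu⟩
    induction hu using Algebra.adjoin_induction with
    | mem t ht =>
      refine ⟨1, ?_⟩
      have := hy (φ ⟨t, Algebra.subset_adjoin ht⟩)
        (Finset.mem_image.2 ⟨⟨t, ht⟩, Finset.mem_attach _ _, rfl⟩)
      rw [pow_one, ← zsmul_eq_mul]
      exact this
    | algebraMap r =>
      refine ⟨0, ?_⟩
      rw [pow_zero, one_mul]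
      have : φ ⟨algebraMap ℤ K r, Subalgebra.algebraMap_mem _ r⟩ = algebraMap ℤ _ r := by
        have h1 : (⟨algebraMap ℤ K r, Subalgebra.algebraMap_mem _ r⟩ :
          Algebra.adjoin ℤ (T : Set K)) = ((r : ℤ) : Algebra.adjoin ℤ (T : Set K)) := by
          apply Subtype.ext
          simp
        rw [h1, map_intCast]
        simp
      rw [this]
      exact isIntegral_algebraMap
    | add a b ha hb h1 h2 =>
      obtain ⟨d, hd⟩ := h1
      obtain ⟨e, he⟩ := h2
      refine ⟨d + e, ?_⟩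
      have hy' : IsIntegral ℤ (y : AlgebraicClosure ℚ) := by
        have : (y : AlgebraicClosure ℚ) = algebraMap ℤ _ y := by simp
        rw [this]; exact isIntegral_algebraMap
      have e1 : (⟨a + b, Subalgebra.add_mem _ ha hb⟩ : Algebra.adjoin ℤ (T : Set K)) =
        ⟨a, ha⟩ + ⟨b, hb⟩ := rfl
      rw [e1, map_add]
      have : (y : AlgebraicClosure ℚ) ^ (d + e) * (φ ⟨a, ha⟩ + φ ⟨b, hb⟩) =
        (y : AlgebraicClosure ℚ) ^ e * ((y : AlgebraicClosure ℚ) ^ d * φ ⟨a, ha⟩) +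
        (y : AlgebraicClosure ℚ) ^ d * ((y : AlgebraicClosure ℚ) ^ e * φ ⟨b, hb⟩) := by
        rw [pow_add]; ring
      rw [this]
      exact ((hy'.pow e).mul hd).add ((hy'.pow d).mul he)
    | mul a b ha hb h1 h2 =>
      obtain ⟨d, hd⟩ := h1
      obtain ⟨e, he⟩ := h2
      refine ⟨d + e, ?_⟩
      have e1 : (⟨a * b, Subalgebra.mul_mem _ ha hb⟩ : Algebra.adjoin ℤ (T : Set K)) =
        ⟨a, ha⟩ * ⟨b, hb⟩ := rfl
      rw [e1, map_mul]
      have : (y : AlgebraicClosure ℚ) ^ (d + e) * (φ ⟨a, ha⟩ * φ ⟨b, hb⟩) =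
        ((y : AlgebraicClosure ℚ) ^ d * φ ⟨a, ha⟩) * ((y : AlgebraicClosure ℚ) ^ e * φ ⟨b, hb⟩) := by
        rw [pow_add]; ring
      rw [this]
      exact hd.mul he
  refine ⟨y.natAbs, Int.natAbs_ne_zero.2 hy0, fun p hp hpN hu => hpN ?_⟩
  obtain ⟨u, hu⟩ := hu.exists_right_inv
  obtain ⟨d, hd⟩ := hall u
  have hpu : (p : AlgebraicClosure ℚ) * φ u = 1 := by
    have := congrArg φ hu
    rwa [map_mul, map_natCast, map_one] at this
  have hp0 : (p : AlgebraicClosure ℚ) ≠ 0 := by exact_mod_cast hp.ne_zero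
  have hφu : φ u = algebraMap ℚ (AlgebraicClosure ℚ) ((p : ℚ)⁻¹) := by
    rw [map_inv₀, map_natCast]
    exact eq_inv_of_mul_eq_one_right hpu
  have e2 : (y : AlgebraicClosure ℚ) ^ d * φ u =
      algebraMap ℚ (AlgebraicClosure ℚ) ((y : ℚ) ^ d * (p : ℚ)⁻¹) := by
    rw [hφu, map_mul, map_pow]
    simp
  rw [e2, isIntegral_algebraMap_iff (algebraMap ℚ (AlgebraicClosure ℚ)).injective] at hd
  obtain ⟨z, hz⟩ := IsIntegrallyClosed.isIntegral_iff.1 hd
  have e3 : y ^ d = p * z := by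
    have hpq : (p : ℚ) ≠ 0 := by exact_mod_cast hp.ne_zero
    have : ((y : ℤ) : ℚ) ^ d = (p : ℚ) * (z : ℚ) := by
      have hz' : (z : ℚ) = (y : ℚ) ^ d * (p : ℚ)⁻¹ := by simpa using hz
      rw [hz']
      field_simp
    exact_mod_cast this
  have h4 : (p : ℤ) ∣ y ^ d := ⟨z, e3⟩
  have h5 := Int.Prime.dvd_pow' hp h4
  exact Int.natCast_dvd.1 h5

/-- Points of characteristic `p`. -/
lemma point_p {K : Type*} [Field K] (T : Finset K) (p : ℕ) (hp : p.Prime)
    (h : ¬ IsUnit ((p : ℕ) : Algebra.adjoin ℤ (T : Set K))) (k : Type*) [Field k] [IsAlgClosed k]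
    [CharP k p] : Nonempty (Algebra.adjoin ℤ (T : Set K) →+* k) := by
  have hf : Algebra.FiniteType ℤ (Algebra.adjoin ℤ (T : Set K)) := finiteType_adjoin T
  have : Fact p.Prime := ⟨hp⟩
  obtain ⟨m, hm, hpm⟩ := exists_max_ideal_of_mem_nonunits (mem_nonunits_iff.2 h)
  let _ : Field (Algebra.adjoin ℤ (T : Set K) ⧸ m) := Ideal.Quotient.field m
  have hch : CharP (Algebra.adjoin ℤ (T : Set K) ⧸ m) p := by
    refine (CharP.charP_iff_prime_eq_zero hp).2 ?_
    rw [← map_natCast (Ideal.Quotient.mk m)]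
    exact Ideal.Quotient.eq_zero_iff_mem.2 hpm
  let _ : Algebra (ZMod p) (Algebra.adjoin ℤ (T : Set K) ⧸ m) := ZMod.algebra _ p
  let _ : Algebra (ZMod p) k := ZMod.algebra _ p
  have h1 : Algebra.FiniteType ℤ (Algebra.adjoin ℤ (T : Set K) ⧸ m) :=
    Algebra.FiniteType.of_surjective (Ideal.Quotient.mkₐ ℤ m) (Ideal.Quotient.mkₐ_surjective ℤ m)
  have h2 : Algebra.FiniteType (ZMod p) (Algebra.adjoin ℤ (T : Set K) ⧸ m) :=
    Algebra.FiniteType.of_restrictScalars_finiteType ℤ (ZMod p) _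
  obtain ⟨ψ⟩ := exists_point (ZMod p) (Algebra.adjoin ℤ (T : Set K) ⧸ m) k
  exact ⟨ψ.toRingHom.comp (Ideal.Quotient.mk m)⟩

end Pool.Agent.R683.NP
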