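import Pool.Agent.R683.NP.Lead
import Pool.Agent.R683.NP.Special
import Pool.Agent.R683.NP.Trans

/-!
Transfer of `n`-central polynomials to other fields.
-/

set_option autoImplicit false

namespace Pool.Agent.R683.NP

open Matrix Pool.Agent.H552R3.PC Pool.Agent.TH82.NC Pool.Agent.R676.NC
open Pool.Agent.Results.MP_5d2531_al.BlockTriangular

universe w

lemma point_same (κ : Type*) {K : Type*} (k : Type*) [Field κ] [Field K] [Algebra κ K] [Field k]
    [IsAlgClosed k] [Algebra κ k] (T : Finset K) :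
    Nonempty (Algebra.adjoin ℤ (T : Set K) →+* k) := by
  have : Algebra.FiniteType κ (Algebra.adjoin κ (T : Set K)) := finiteType_adjoin T
  obtain ⟨ψ⟩ := exists_point κ (Algebra.adjoin κ (T : Set K)) k
  have hle : Algebra.adjoin ℤ (T : Set K) ≤ (Algebra.adjoin κ (T : Set K)).restrictScalars ℤ :=
    Algebra.adjoin_le Algebra.subset_adjoin
  exact ⟨ψ.toRingHom.comp (Subalgebra.inclusion hle).toRingHom⟩

lemma point_char {K : Type*} (k : Type*) [Field K] [Field k] [IsAlgClosed k] (p : ℕ) [CharP K p]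
    [CharP k p] (T : Finset K) : Nonempty (Algebra.adjoin ℤ (T : Set K) →+* k) := by
  rcases CharP.char_is_prime_or_zero K p with hp | hp
  · have : Fact p.Prime := ⟨hp⟩
    let _ : Algebra (ZMod p) K := ZMod.algebra _ p
    let _ : Algebra (ZMod p) k := ZMod.algebra _ p
    exact point_same (ZMod p) k T
  · subst hp
    have : CharZero K := CharP.charP_to_charZero K
    have : CharZero k := CharP.charP_to_charZero k
    exact point_same ℚ k T

theorem transfer_main {K : Type*} [Field K] [Infinite K] {σ : Type*} {n : ℕ} (hn : n.Prime)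
    (f : FreeAlgebra K σ) (hf : IsNuCentral n n f) :
    ∃ T : Finset K, ∀ (k : Type w) [Field k] [Infinite k],
      Nonempty (Algebra.adjoin ℤ (T : Set K) →+* k) →
      ∃ g : FreeAlgebra k σ, IsNuCentral n n g ∧ ∀ l, coef g l ≠ 0 → coef f l ≠ 0 := by
  classical
  set T0 : Finset K := (supp f).image (coef f) with hT0
  set c : List σ → Algebra.adjoin ℤ (T0 : Set K) := fun l =>
    if h : coef f l ∈ Algebra.adjoin ℤ (T0 : Set K) then ⟨coef f l, h⟩ else 0 with hc
  have hmem : ∀ l ∈ supp f, coef f l ∈ Algebra.adjoin ℤ (T0 : Set K) := fun l hl =>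
    Algebra.subset_adjoin (Finset.mem_coe.2 (Finset.mem_image_of_mem _ hl))
  set α : Algebra.adjoin ℤ (T0 : Set K) →+* K := (Algebra.adjoin ℤ (T0 : Set K)).val.toRingHom
    with hα
  have hpol : pol α (supp f) c = f := by
    have h1 := lift_eq (FreeAlgebra.ι K (X := σ)) f
    have h2 : FreeAlgebra.lift K (FreeAlgebra.ι K (X := σ)) = AlgHom.id K _ := by
      apply FreeAlgebra.hom_ext
      funext i
      simp
    rw [h2] at h1
    have h3 : f = ∑ l ∈ supp f, coef f l • (l.map (FreeAlgebra.ι K)).prod := h1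
    conv_rhs => rw [h3]
    unfold pol
    refine Finset.sum_congr rfl fun l hl => ?_
    rw [hc]
    simp only [dif_pos (hmem l hl)]
    rfl
  obtain ⟨r, hr0, hr⟩ := special (R := Algebra.adjoin ℤ (T0 : Set K)) hn α
    Subtype.val_injective (supp f) c (by rw [hpol]; exact hf)
  refine ⟨insert ((r : K)⁻¹) T0, ?_⟩
  rintro k _ _ ⟨φ⟩
  have hle : Algebra.adjoin ℤ (T0 : Set K) ≤
      Algebra.adjoin ℤ ((insert ((r : K)⁻¹) T0 : Finset K) : Set K) :=
    Algebra.adjoin_mono (by simp)
  have hinv : (r : K)⁻¹ ∈ Algebra.adjoin ℤ ((insert ((r : K)⁻¹) T0 : Finset K) : Set K) :=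
    Algebra.subset_adjoin (by simp)
  set β : Algebra.adjoin ℤ (T0 : Set K) →+* k :=
    φ.comp (Subalgebra.inclusion hle).toRingHom with hβ
  have hβr : β r ≠ 0 := by
    intro h0
    have h1 : Subalgebra.inclusion hle r * ⟨(r : K)⁻¹, hinv⟩ = 1 := by
      apply Subtype.ext
      change (r : K) * (r : K)⁻¹ = 1
      exact mul_inv_cancel₀ fun h => hr0 (Subtype.ext h)
    have h2 := congrArg φ h1
    rw [map_mul, map_one] at h2
    have h3 : φ (Subalgebra.inclusion hle r) = 0 := h0
    rw [h3, zero_mul] at h2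
    exact zero_ne_one h2
  refine ⟨pol β (supp f) c, (hr k β).2 hβr, fun l hl => ?_⟩
  by_contra hcon
  apply hl
  unfold pol
  rw [coef_sum]
  apply Finset.sum_eq_zero
  intro l' hl'
  rw [coef_smul, coef_word, if_neg, mul_zero]
  rintro rfl
  exact (mem_supp.1 hl') hcon

/-- Transfer to algebraically closed fields. -/
theorem transfer_closed {K : Type*} [Field K] [Infinite K] {σ : Type*} {n : ℕ} (hn : n.Prime)
    (f : FreeAlgebra K σ) (hf : IsNuCentral n n f) :
    (∀ (k : Type w) [Field k] [IsAlgClosed k] (p : ℕ) [CharP K p] [CharP k p],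
      ∃ g : FreeAlgebra k σ, IsNuCentral n n g ∧ ∀ l, coef g l ≠ 0 → coef f l ≠ 0) ∧
    (CharZero K → ∃ N : ℕ, N ≠ 0 ∧ ∀ p : ℕ, p.Prime → ¬ p ∣ N →
      ∀ (k : Type w) [Field k] [IsAlgClosed k] [CharP k p],
      ∃ g : FreeAlgebra k σ, IsNuCentral n n g ∧ ∀ l, coef g l ≠ 0 → coef f l ≠ 0) := by
  obtain ⟨T, hT⟩ := transfer_main.{w} hn f hf
  refine ⟨fun k _ _ p _ _ => ?_, fun _ => ?_⟩
  · have : Infinite k := inferInstance
    exact hT k (point_char k p T)
  · obtain ⟨N, hN, h⟩ := primes T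
    refine ⟨N, hN, fun p hp hpN k _ _ _ => ?_⟩
    have : Infinite k := inferInstance
    exact hT k (point_p T p hp (h p hp hpN) k)

end Pool.Agent.R683.NP
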