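import Pool.Agent.R683.NP.Prop
import Pool.Agent.R683.NP.Transfer
import Pool.Agent.Results.MP_5d2531_al.TwoNonlinearVariables
import Pool.Agent.Results.MP_5d2531_al.NearlyMultilinear

/-!
# Leading components, normal forms and transfer of `n`-central polynomials, `n` prime

`K` is any infinite field (of any characteristic) and `n` any prime; `comp w j f` is the part of `f`
formed by the words `x_{i_1} ⋯ x_{i_k}` with `w i_1 + ⋯ + w i_k = j`.

1. For each weight `w` of the variables, the leading component of an `n`-central polynomial `f` is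
   `n`-central (the components of larger weight are scalar valued, and they vanish on `M_n(K)` if the
   characteristic is not `n`).  So the known restrictions on `n`-central polynomials hold for each
   leading component: for example it is not multilinear.
2. Suppose that there is an `n`-central polynomial for `M_n(K)`, in any variables.  Then there are
   such polynomials in two variables `x`, `y`.  Let `a` be the least degree in `x` of such a
   polynomial.  If `g(x, y)` is `n`-central and homogeneous of degree `a` in `x` then so is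
   `g([x, y], y)`, and `g(x + p(y), y) = g(x, y)` on `M_n(K)` for all `p ∈ K[T]`.  There is such a `g`
   which is also homogeneous in `y` and satisfies `g(x, y + t) = g(x, y)` on `M_n(K)` for `t ∈ K`.
   (In characteristic `n` these equations hold up to a scalar matrix.)  If the characteristic is
   not `n` then there is an `n`-central polynomial of degree `a` in `x` which is a polynomial in the
   commutators `[x, y]`, `[[x, y], y]`, `[[[x, y], y], y]`, ….
3. If `f` is `n`-central for `M_n(K)` then for each algebraically closed field `k` of the same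
   characteristic there is an `n`-central polynomial for `M_n(k)` whose words all occur in `f`; if the
   characteristic of `K` is zero then this is also true for the algebraically closed fields `k` of
   characteristic `p`, for almost all primes `p`.
-/

set_option autoImplicit false

namespace Pool.Agent.Results.MP_5d2531_al.LeadingComponents

open Matrix Pool.Agent.R676.NC Pool.Agent.R683.NP
open Pool.Agent.Results.MP_5d2531_al.BlockTriangular (ScalarValued IsNuCentral coef)

universe u v w

/-- The component of weight `j` of `f`, for the weight `w` of the variables: the sum of the terms of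
`f` whose words `x_{i_1} ⋯ x_{i_k}` satisfy `w i_1 + ⋯ + w i_k = j`. -/
noncomputable def component {K : Type*} [Field K] {σ : Type*} (w : σ → ℤ) (j : ℤ)
    (f : FreeAlgebra K σ) : FreeAlgebra K σ :=
  open Classical in
  ∑ l ∈ supp f with (l.map w).sum = j, coef f l • (l.map (FreeAlgebra.ι K)).prod

/-- The commutators: `commutator K 0 = x`, `commutator K (k + 1) = [commutator K k, y]`. -/
noncomputable def commutator (K : Type*) [Field K] : ℕ → FreeAlgebra K (Fin 2)
  | 0 => FreeAlgebra.ι K 0
  | k + 1 => commutator K k * FreeAlgebra.ι K 1 - FreeAlgebra.ι K 1 * commutator K k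

theorem commutator_eq (K : Type*) [Field K] (k : ℕ) : commutator K k = br K k := by
  induction k with
  | zero => rfl
  | succ k ih => simp only [commutator, Pool.Agent.R683.NP.br, ih]

/-- Let `n` be a prime and `K` an infinite field of any characteristic.
1. Let `f` be an `n`-central polynomial for `M_n(K)` and `w` a weight of the variables.  For some `N`
   the component `f_N` of weight `N` of `f` is `n`-central, and the components of weight `> N` are
   scalar valued, and vanish on `M_n(K)` if the characteristic of `K` is not `n`.  If `n ≥ 5` then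
   `f_N` has degree at least two in at least two variables; if moreover the characteristic is not
   `2` or `n` then `f_N` is not nearly multilinear.
2. Suppose that there is an `n`-central polynomial for `M_n(K)`.  Then there is a number `a`
   (`a ≥ n` if `n ≠ 2`, `a > n` if `n ≥ 5`) such that
   * each `n`-central polynomial in `x`, `y` has degree at least `a` in `x`;
   * if `g(x, y)` is `n`-central and homogeneous of degree `a` in `x` then `g([x, y], y)` is
     `n`-central and `g(x + p(y), y) = g(x, y)` on `M_n(K)` for all `p ∈ K[T]` (up to scalar matrices if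
     the characteristic is `n`);
   * there is an `n`-central polynomial `f(x, y)`, homogeneous of degree `a` in `x` and homogeneous in
     `y`, such that `f(x, y + t) = f(x, y)` on `M_n(K)` for `t ∈ K` (up to scalar matrices if the
     characteristic is `n`);
   * if the characteristic is not `n`, there is an `n`-central polynomial in the subalgebra generated by
     `[x, y]`, `[[x, y], y]`, …, which on `M_n(K)` is homogeneous of degree `a` in `x` and homogeneous
     in `y`.
3. Let `f` be an `n`-central polynomial for `M_n(K)`.  For each algebraically closed field `k` of the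
   same characteristic there is an `n`-central polynomial for `M_n(k)` all of whose words occur in
   `f`.  If the characteristic of `K` is zero then this also holds for all algebraically closed
   fields `k` of characteristic `p`, for all primes `p` except finitely many. -/
theorem result {K : Type u} [Field K] [Infinite K] (n : ℕ) (hn : n.Prime) :
    (∀ (σ : Type v) (f : FreeAlgebra K σ), IsNuCentral n n f → ∀ w : σ → ℤ,
      ∃ N : ℤ, IsNuCentral n n (component w N f) ∧
        (∀ j : ℤ, N < j → ScalarValued n (component w j f) ∧ ((n : K) ≠ 0 →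
          ∀ X : σ → Matrix (Fin n) (Fin n) K, FreeAlgebra.lift K X (component w j f) = 0)) ∧
        (5 ≤ n → ∀ [DecidableEq σ],
          (∀ x : σ, ¬ TwoNonlinearVariables.DegreeLEOneExcept x (component w N f)) ∧
          ((n : K) ≠ 0 → (2 : K) ≠ 0 →
            ¬ NearlyMultilinear.IsNearlyMultilinear (component w N f)))) ∧
    ((∃ (σ : Type v) (f : FreeAlgebra K σ), IsNuCentral n n f) →
      ∃ a : ℕ, (n ≠ 2 → n ≤ a) ∧ (5 ≤ n → n < a) ∧
        (∀ g : FreeAlgebra K (Fin 2), IsNuCentral n n g →
          ∃ l : List (Fin 2), coef g l ≠ 0 ∧ a ≤ l.count 0) ∧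
        (∀ g : FreeAlgebra K (Fin 2), IsNuCentral n n g →
          (∀ l : List (Fin 2), coef g l ≠ 0 → l.count 0 = a) →
          IsNuCentral n n (FreeAlgebra.lift K ![commutator K 1, FreeAlgebra.ι K 1] g) ∧
          ∀ (p : Polynomial K) (X : Fin 2 → Matrix (Fin n) (Fin n) K), ∃ c : K,
            FreeAlgebra.lift K ![X 0 + Polynomial.aeval (X 1) p, X 1] g =
              FreeAlgebra.lift K X g + Matrix.scalar (Fin n) c ∧ ((n : K) ≠ 0 → c = 0)) ∧
        (∃ (b : ℕ) (f : FreeAlgebra K (Fin 2)), IsNuCentral n n f ∧
          (∀ l : List (Fin 2), coef f l ≠ 0 → l.count 0 = a ∧ l.count 1 = b) ∧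
          ∀ (t : K) (X : Fin 2 → Matrix (Fin n) (Fin n) K), ∃ c : K,
            FreeAlgebra.lift K ![X 0, X 1 + Matrix.scalar (Fin n) t] f =
              FreeAlgebra.lift K X f + Matrix.scalar (Fin n) c ∧ ((n : K) ≠ 0 → c = 0)) ∧
        ((n : K) ≠ 0 → ∃ b : ℕ, ∃ f ∈ Algebra.adjoin K {u | ∃ k, u = commutator K (k + 1)},
          IsNuCentral n n f ∧ ∀ (s t : K) (X : Fin 2 → Matrix (Fin n) (Fin n) K),
            FreeAlgebra.lift K ![s • X 0, t • X 1] f =
              (s ^ a * t ^ b) • FreeAlgebra.lift K X f)) ∧
    (∀ (σ : Type v) (f : FreeAlgebra K σ), IsNuCentral n n f →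
      (∀ (k : Type w) [Field k] [IsAlgClosed k] (p : ℕ) [CharP K p] [CharP k p],
        ∃ g : FreeAlgebra k σ, IsNuCentral n n g ∧ ∀ l, coef g l ≠ 0 → coef f l ≠ 0) ∧
      (CharZero K → ∃ N : ℕ, N ≠ 0 ∧ ∀ p : ℕ, p.Prime → ¬ p ∣ N →
        ∀ (k : Type w) [Field k] [IsAlgClosed k] [CharP k p],
        ∃ g : FreeAlgebra k σ, IsNuCentral n n g ∧ ∀ l, coef g l ≠ 0 → coef f l ≠ 0)) := by
  classical
  refine ⟨fun σ f hf w => ?_, ?_, fun σ f hf => transfer_closed hn f hf⟩
  · obtain ⟨N, h1, h2⟩ := lead hn w f hf
    refine ⟨N, h1, h2, fun hn5 _ => ⟨fun x => ?_, fun hnK h2K => ?_⟩⟩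
    · exact TwoNonlinearVariables.result n hn hn5 _ h1 x
    · exact NearlyMultilinear.result n hn hn5 hnK h2K _ h1
  rintro ⟨σ, f0, hf0⟩
  obtain ⟨f1, hf1⟩ := two_vars hn f0 hf0
  have hbi : ∀ g : FreeAlgebra K (Fin 2), IsNuCentral n n g →
      ∃ a b, Bi K n a b ∧ ∃ l, coef g l ≠ 0 ∧ l.count 0 = a := by
    intro g hg
    obtain ⟨N, h1, -⟩ := lead hn (Pi.single 0 1 : Fin 2 → ℤ) g hg
    obtain ⟨a, rfl, h3⟩ := single_comp hn 0 N g h1
    obtain ⟨b, hb, l, hl, -⟩ := bi_of hn _ h1 a fun l hl => (h3 l hl).1
    exact ⟨a, b, hb, l, (h3 l hl).2, (h3 l hl).1⟩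
  have hexa : ∃ a, ∃ b, Bi K n a b := by
    obtain ⟨a, b, h, -⟩ := hbi f1 hf1
    exact ⟨a, b, h⟩
  set a := Nat.find hexa with ha
  have hexb : ∃ b, Bi K n a b := Nat.find_spec hexa
  set b := Nat.find hexb with hb
  have hmina : ∀ a' < a, ¬ ∃ b, Bi K n a' b := fun a' h => Nat.find_min hexa h
  have hminb : ∀ b' < b, ¬ Bi K n a b' := fun b' h => Nat.find_min hexb h
  obtain ⟨f, hf, hfab⟩ : Bi K n a b := Nat.find_spec hexb
  refine ⟨a, ?_, ?_, ?_, ?_, ⟨b, f, hf, hfab, y_shift hn a b hminb f hf hfab⟩, ?_⟩
  · intro hn2
    obtain ⟨l, hl⟩ := ncentral_word hn f hf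
    have hlne : ∃ l, coef f l ≠ 0 ∧ l ≠ [] := by
      by_contra hcon
      push Not at hcon
      apply ((ncentral_iff hn f).1 hf).2
      intro X
      refine ⟨∑ l ∈ supp f, coef f l, ?_⟩
      rw [lift_eq, map_sum]
      refine Finset.sum_congr rfl fun l hl => ?_
      rw [hcon l (mem_supp.1 hl), List.map_nil, List.prod_nil]
      ext i j
      simp [Matrix.one_apply, Matrix.diagonal_apply]
    obtain ⟨l, hl, hne⟩ := hlne
    have h := ((Pool.Agent.Results.MP_5d2531_al.BlockTriangular.result n hn hn2 f hf).2 l hne hl).2.2 1
    rw [← (hfab l hl).1]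
    refine h.trans (le_of_eq ?_)
    rw [List.count]
    refine List.countP_congr fun s _ => ?_
    fin_cases s <;> simp
  · intro hn5
    obtain ⟨l, hl, h⟩ := many_letters hn hn5 f hf 1
    rw [← (hfab l hl).1]
    refine lt_of_lt_of_le h (le_of_eq ?_)
    rw [List.count]
    refine List.countP_congr fun s _ => ?_
    fin_cases s <;> simp
  · intro g hg
    obtain ⟨a', b', h, l, hl, hla⟩ := hbi g hg
    refine ⟨l, hl, ?_⟩
    by_contra hcon
    push Not at hcon
    rw [hla] at hcon
    exact hmina a' hcon ⟨b', h⟩
  · intro g hg hga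
    exact ⟨brk_ncentral hn a hmina g hg hga, fun p X => x_shift hn a hmina g hg hga p X⟩
  · intro hnK
    have hg1 := brk_ncentral hn a hmina f hf fun l hl => (hfab l hl).1
    obtain ⟨f', hf', hval⟩ := to_BB (n := n) f (fun t X => by
      rw [lift_brk, lift_brk]
      obtain ⟨c, hc, hc0⟩ := y_shift hn a b hminb f hf hfab t ![X 0 * X 1 - X 1 * X 0, X 1]
      rw [hc0 hnK, map_zero, add_zero] at hc
      simp only [Matrix.cons_val_zero, Matrix.cons_val_one] at hc ⊢
      rw [← hc]
      congr 3
      rw [mul_add, add_mul, Pool.Agent.R683.NP.scalar_comm]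
      abel)
    refine ⟨a + b, f', ?_, ncentral_congr hn _ _ (fun X => (hval X).symm) hg1, fun s t X => ?_⟩
    · have : {u | ∃ k, u = commutator K (k + 1)} = {u | ∃ k, u = br K (k + 1)} := by
        simp_rw [commutator_eq]
      rw [this]
      exact hf'
    · rw [hval, hval, lift_brk, lift_brk]
      simp only [Matrix.cons_val_zero, Matrix.cons_val_one]
      have e : (s • X 0) * (t • X 1) - (t • X 1) * (s • X 0) =
          (s * t) • (X 0 * X 1 - X 1 * X 0) := by
        rw [smul_mul_smul_comm, smul_mul_smul_comm, mul_comm t s, smul_sub]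
      rw [e]
      have h := hom_two f a b hfab (s * t) t ![X 0 * X 1 - X 1 * X 0, X 1]
      simp only [Matrix.cons_val_zero, Matrix.cons_val_one] at h
      rw [h, mul_pow, pow_add, mul_assoc]

end Pool.Agent.Results.MP_5d2531_al.LeadingComponents
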