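import Pool.Agent.R683.NP.Two
import Pool.Agent.Results.MP_5d2531_al.OtherVariablesDegree

/-!
The normal form of `n`-central polynomials.
-/

set_option autoImplicit false

namespace Pool.Agent.R683.NP

open Matrix Pool.Agent.H552R3.PC Pool.Agent.TH82.NC Pool.Agent.R676.NC
open Pool.Agent.Results.MP_5d2531_al.BlockTriangular

variable {K : Type*} [Field K] {σ : Type*} {n : ℕ}

lemma sum_single [DecidableEq σ] (x : σ) (l : List σ) :
    (l.map (Pi.single x 1 : σ → ℤ)).sum = l.count x := by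
  induction l with
  | nil => simp
  | cons a l ih =>
    rw [List.map_cons, List.sum_cons, ih, List.count_cons]
    by_cases h : a = x
    · subst h; simp [add_comm]
    · simp [h]

lemma comp_word (w : σ → ℤ) (j : ℤ) (f : FreeAlgebra K σ) (l : List σ)
    (h : coef (comp w j f) l ≠ 0) : (l.map w).sum = j ∧ coef f l ≠ 0 := by
  rw [coef_comp] at h
  by_cases h1 : (l.map w).sum = j
  · rw [if_pos h1] at h; exact ⟨h1, h⟩
  · rw [if_neg h1] at h; exact absurd rfl h

lemma ncentral_word [Infinite K] (hn : n.Prime) (f : FreeAlgebra K σ) (hf : IsNuCentral n n f) :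
    ∃ l, coef f l ≠ 0 := by
  by_contra hcon
  push Not at hcon
  rw [ncentral_iff hn] at hf
  apply hf.2
  intro X
  refine ⟨0, ?_⟩
  rw [lift_eq, map_zero]
  apply Finset.sum_eq_zero
  intro l _
  rw [hcon l, zero_smul]

/-- `a` is the degree in `x`, `b` the degree in `y` of a bihomogeneous `n`-central polynomial. -/
def Bi (K : Type*) [Field K] (n a b : ℕ) : Prop :=
  ∃ f : FreeAlgebra K (Fin 2), IsNuCentral n n f ∧
    ∀ l, coef f l ≠ 0 → l.count 0 = a ∧ l.count 1 = b

lemma single_comp [Infinite K] (hn : n.Prime) (x : Fin 2) (N : ℤ) (f : FreeAlgebra K (Fin 2))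
    (h : IsNuCentral n n (comp (Pi.single x 1 : Fin 2 → ℤ) N f)) :
    ∃ a : ℕ, N = a ∧ ∀ l, coef (comp (Pi.single x 1 : Fin 2 → ℤ) N f) l ≠ 0 →
      l.count x = a ∧ coef f l ≠ 0 := by
  obtain ⟨l, hl⟩ := ncentral_word hn _ h
  refine ⟨l.count x, ?_, fun l' hl' => ?_⟩
  · rw [← (comp_word _ _ _ _ hl).1, sum_single]
  · have h1 := comp_word _ _ _ _ hl
    have h2 := comp_word _ _ _ _ hl'
    rw [sum_single] at h1 h2
    refine ⟨?_, h2.2⟩
    have := h1.1.trans h2.1.symm
    exact_mod_cast this.symm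

/-- a bihomogeneous `n`-central component -/
lemma bi_of [Infinite K] (hn : n.Prime) (f : FreeAlgebra K (Fin 2)) (hf : IsNuCentral n n f)
    (a : ℕ) (ha : ∀ l, coef f l ≠ 0 → l.count 0 = a) :
    ∃ b, Bi K n a b ∧ ∃ l, coef f l ≠ 0 ∧ l.count 1 = b := by
  obtain ⟨N, h1, -⟩ := lead hn (Pi.single 1 1 : Fin 2 → ℤ) f hf
  obtain ⟨b, -, h3⟩ := single_comp hn 1 N f h1
  obtain ⟨l, hl⟩ := ncentral_word hn _ h1
  exact ⟨b, ⟨_, h1, fun l hl => ⟨ha l (h3 l hl).2, (h3 l hl).1⟩⟩, l, (h3 l hl).2, (h3 l hl).1⟩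

/-- The conclusion of the shift lemma in matrix form. -/
lemma shift_mat [Infinite K] (x : Fin 2) (q f : FreeAlgebra K (Fin 2))
    (hq : ∀ (X : Fin 2 → Matrix (Fin n) (Fin n) K) (A : Matrix (Fin n) (Fin n) K),
      FreeAlgebra.lift K (Function.update X x A) q = FreeAlgebra.lift K X q) (a : ℕ)
    (hf : ∀ l, coef f l ≠ 0 → l.count x = a)
    (hlow : ∀ j : ℤ, j < a → ScalarValued n (comp (Pi.single x 1 : Fin 2 → ℤ) j (sub x q f)) ∧
      ((n : K) ≠ 0 → ∀ X : Fin 2 → Matrix (Fin n) (Fin n) K,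
        FreeAlgebra.lift K X (comp (Pi.single x 1 : Fin 2 → ℤ) j (sub x q f)) = 0))
    (X : Fin 2 → Matrix (Fin n) (Fin n) K) :
    ∃ c : K, FreeAlgebra.lift K (Function.update X x (X x + FreeAlgebra.lift K X q)) f =
      FreeAlgebra.lift K X f + Matrix.scalar (Fin n) c ∧ ((n : K) ≠ 0 → c = 0) := by
  have hf' : ∀ s : K, s ≠ 0 → ∀ X : Fin 2 → Matrix (Fin n) (Fin n) K,
      FreeAlgebra.lift K (fun i => s ^ (Pi.single x 1 : Fin 2 → ℤ) i • X i) f =
        s ^ (a : ℤ) • FreeAlgebra.lift K X f := by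
    intro s hs X
    exact comp_hom _ _ f s hs X fun l hl => by rw [sum_single, hf l hl]
  by_cases hnK : (n : K) = 0
  · have hsc : ∃ c : K, FreeAlgebra.lift K (Function.update X x (X x + FreeAlgebra.lift K X q)) f -
        FreeAlgebra.lift K X f = Matrix.scalar (Fin n) c := by
      apply scalar_of_comm
      intro Z
      ext b c
      let μ : Matrix (Fin n) (Fin n) K →ₗ[K] K :=
        { toFun := fun M => (M * Z - Z * M) b c
          map_add' := by
            intro M M'
            simp only [add_mul, mul_add, Matrix.sub_apply, Matrix.add_apply]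
            ring
          map_smul' := by
            intro t M
            simp only [smul_mul_assoc, mul_smul_comm, Matrix.sub_apply, Matrix.smul_apply,
              smul_eq_mul, RingHom.id_apply]
            ring }
      have hμ : ∀ M, μ M = (M * Z - Z * M) b c := fun _ => rfl
      have h := shift x q f hq a hf' μ (fun m hm X => by
        obtain ⟨c', hc'⟩ := (hlow m hm).1 X
        rw [hμ, hc', scalar_comm, sub_self, Matrix.zero_apply]) X
      rw [hμ, hμ] at h
      rw [sub_mul, mul_sub, Matrix.sub_apply, Matrix.sub_apply]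
      rw [Matrix.sub_apply, Matrix.sub_apply] at h
      linear_combination h
    obtain ⟨c, hc⟩ := hsc
    exact ⟨c, by rw [← hc]; abel, fun h => absurd hnK h⟩
  · refine ⟨0, ?_, fun _ => rfl⟩
    rw [map_zero, add_zero]
    ext b c
    let μ : Matrix (Fin n) (Fin n) K →ₗ[K] K :=
      { toFun := fun M => M b c
        map_add' := fun M M' => rfl
        map_smul' := fun t M => rfl }
    have hμ : ∀ M, μ M = M b c := fun _ => rfl
    have h := shift x q f hq a hf' μ (fun m hm X => by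
      rw [hμ, (hlow m hm).2 hnK X, Matrix.zero_apply]) X
    rw [hμ, hμ] at h
    exact h

/-- The minimality of the degree in `x` gives the invariance. -/
lemma x_shift [Infinite K] (hn : n.Prime) (a : ℕ) (hmin : ∀ a' < a, ¬ ∃ b, Bi K n a' b)
    (g : FreeAlgebra K (Fin 2)) (hg : IsNuCentral n n g) (hga : ∀ l, coef g l ≠ 0 → l.count 0 = a)
    (p : Polynomial K) (X : Fin 2 → Matrix (Fin n) (Fin n) K) :
    ∃ c : K, FreeAlgebra.lift K ![X 0 + Polynomial.aeval (X 1) p, X 1] g =
      FreeAlgebra.lift K X g + Matrix.scalar (Fin n) c ∧ ((n : K) ≠ 0 → c = 0) := by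
  set q : FreeAlgebra K (Fin 2) := Polynomial.aeval (FreeAlgebra.ι K 1) p with hqdef
  have hqe : ∀ X : Fin 2 → Matrix (Fin n) (Fin n) K,
      FreeAlgebra.lift K X q = Polynomial.aeval (X 1) p := by
    intro X
    rw [hqdef, ← Polynomial.aeval_algHom_apply, FreeAlgebra.lift_ι_apply]
  have hq : ∀ (X : Fin 2 → Matrix (Fin n) (Fin n) K) (A : Matrix (Fin n) (Fin n) K),
      FreeAlgebra.lift K (Function.update X 0 A) q = FreeAlgebra.lift K X q := by
    intro X A
    rw [hqe, hqe]
    simp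
  obtain ⟨N, h1, h2⟩ := low hn (Pi.single 0 1 : Fin 2 → ℤ) (sub 0 q g)
    (ncentral_sub hn 0 q g hq hg)
  have hN : (a : ℤ) ≤ N := by
    obtain ⟨a', rfl, h3⟩ := single_comp hn 0 N _ h1
    obtain ⟨b, hb, -⟩ := bi_of hn _ h1 a' fun l hl => (h3 l hl).1
    by_contra hcon
    push Not at hcon
    exact hmin a' (by exact_mod_cast hcon) ⟨b, hb⟩
  obtain ⟨c, hc, hc0⟩ := shift_mat 0 q g hq a hga (fun j hj => h2 j (by omega)) X
  refine ⟨c, ?_, hc0⟩
  rw [← hc, hqe]
  congr 2
  funext i
  fin_cases i <;> simp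

/-- The minimality of the degree in `y` gives the invariance. -/
lemma y_shift [Infinite K] (hn : n.Prime) (a b : ℕ) (hmin : ∀ b' < b, ¬ Bi K n a b')
    (g : FreeAlgebra K (Fin 2)) (hg : IsNuCentral n n g)
    (hgb : ∀ l, coef g l ≠ 0 → l.count 0 = a ∧ l.count 1 = b)
    (t : K) (X : Fin 2 → Matrix (Fin n) (Fin n) K) :
    ∃ c : K, FreeAlgebra.lift K ![X 0, X 1 + Matrix.scalar (Fin n) t] g =
      FreeAlgebra.lift K X g + Matrix.scalar (Fin n) c ∧ ((n : K) ≠ 0 → c = 0) := by
  set q : FreeAlgebra K (Fin 2) := algebraMap K _ t with hqdef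
  have hqe : ∀ X : Fin 2 → Matrix (Fin n) (Fin n) K,
      FreeAlgebra.lift K X q = Matrix.scalar (Fin n) t := by
    intro X
    rw [hqdef, AlgHom.commutes]
    rfl
  have hq : ∀ (X : Fin 2 → Matrix (Fin n) (Fin n) K) (A : Matrix (Fin n) (Fin n) K),
      FreeAlgebra.lift K (Function.update X 1 A) q = FreeAlgebra.lift K X q := by
    intro X A
    rw [hqe, hqe]
  -- `sub 1 q g` is homogeneous in `x` as a function
  have hx : ∀ s : K, s ≠ 0 → ∀ X : Fin 2 → Matrix (Fin n) (Fin n) K,
      FreeAlgebra.lift K (fun i => s ^ (Pi.single 0 1 : Fin 2 → ℤ) i • X i) (sub 1 q g) =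
        s ^ (a : ℤ) • FreeAlgebra.lift K X (sub 1 q g) := by
    intro s hs X
    rw [lift_sub, lift_sub, hqe, hqe, ← comp_hom (Pi.single 0 1 : Fin 2 → ℤ) a g s hs _
      (fun l hl => by rw [sum_single, (hgb l hl).1])]
    congr 2
    funext i
    fin_cases i <;> simp
  obtain ⟨N, h1, h2⟩ := low hn (Pi.single 1 1 : Fin 2 → ℤ) (sub 1 q g)
    (ncentral_sub hn 1 q g hq hg)
  have hN : (b : ℤ) ≤ N := by
    obtain ⟨b', rfl, h3⟩ := single_comp hn 1 N _ h1
    set g1 := comp (Pi.single 1 1 : Fin 2 → ℤ) (b' : ℤ) (sub 1 q g) with hg1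
    have hx1 : ∀ s : K, s ≠ 0 → ∀ X : Fin 2 → Matrix (Fin n) (Fin n) K,
        FreeAlgebra.lift K (fun i => s ^ (Pi.single 0 1 : Fin 2 → ℤ) i • X i) g1 =
          s ^ (a : ℤ) • FreeAlgebra.lift K X g1 :=
      fun s hs X => comp_other _ _ _ _ _ hx s hs X
    have h4 : IsNuCentral n n (comp (Pi.single 0 1 : Fin 2 → ℤ) (a : ℤ) g1) :=
      ncentral_congr hn g1 _ (fun X => (comp_self _ _ _ hx1 X).symm) h1
    by_contra hcon
    push Not at hcon
    refine hmin b' (by exact_mod_cast hcon) ⟨_, h4, fun l hl => ?_⟩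
    have h5 := comp_word _ _ _ _ hl
    rw [sum_single] at h5
    exact ⟨by exact_mod_cast h5.1, (h3 l h5.2).1⟩
  obtain ⟨c, hc, hc0⟩ := shift_mat 1 q g hq b (fun l hl => (hgb l hl).2)
    (fun j hj => h2 j (by omega)) X
  refine ⟨c, ?_, hc0⟩
  rw [← hc, hqe]
  congr 2
  funext i
  fin_cases i <;> simp

/-- the starting result `OtherVariablesDegree` for a variable of a bihomogeneous polynomial -/
lemma many_letters [Infinite K] (hn : n.Prime) (hn5 : 5 ≤ n) (f : FreeAlgebra K (Fin 2))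
    (hf : IsNuCentral n n f) (x : Fin 2) : ∃ l, coef f l ≠ 0 ∧ n < l.countP (fun s => s ≠ x) := by
  classical
  by_contra hcon
  push Not at hcon
  have h6 : n.Coprime 6 := by
    rw [Nat.Prime.coprime_iff_not_dvd hn]
    intro h
    have h2 := Nat.le_of_dvd (by norm_num) h
    have h3 : n = 5 ∨ n = 6 := by omega
    rcases h3 with rfl | rfl
    · norm_num at h
    · norm_num at hn
  have hat : Pool.Agent.Results.MP_5d2531_al.OtherVariablesDegree.AtMostOutside {x} n f := by
    unfold Pool.Agent.Results.MP_5d2531_al.OtherVariablesDegree.AtMostOutside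
    have e : f = ∑ l ∈ supp f, coef f l • (l.map (FreeAlgebra.ι K)).prod := by
      have := lift_eq (FreeAlgebra.ι K (X := Fin 2)) f
      have h2 : FreeAlgebra.lift K (FreeAlgebra.ι K (X := Fin 2)) = AlgHom.id K _ := by
        apply FreeAlgebra.hom_ext
        funext i
        simp
      rw [h2] at this
      exact this
    rw [e]
    refine Submodule.sum_mem _ fun l hl => Submodule.smul_mem _ _ (Submodule.subset_span
      ⟨l, ?_, rfl⟩)
    have := hcon l (mem_supp.1 hl)
    unfold Pool.Agent.Results.MP_5d2531_al.OtherVariablesDegree.lettersOutside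
    refine le_trans (le_of_eq (List.countP_congr fun s _ => ?_)) this
    simp
  have h := (Pool.Agent.Results.MP_5d2531_al.OtherVariablesDegree.result n hn5 h6 n hn.pos {x} f 0
    hat (Submodule.zero_mem _) ?_).2.2 Set.subsingleton_singleton hn.one_lt ?_
  · exact h rfl
  · rw [add_zero]
    exact ((ncentral_iff hn f).1 hf).1
  · rw [add_zero]
    exact hf

end Pool.Agent.R683.NP
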