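import Pool.Agent.R683.NP.Comm

/-!
`n`-central polynomials in the iterated commutators `[x, y, …, y]`.
-/

set_option autoImplicit false

namespace Pool.Agent.R683.NP

open Matrix Pool.Agent.H552R3.PC Pool.Agent.TH82.NC Pool.Agent.R676.NC
open Pool.Agent.Results.MP_5d2531_al.BlockTriangular

universe u

variable {K : Type u} [Field K] {σ : Type*} {n : ℕ}

/-- `br 0 = x`, `br (k + 1) = [br k, y]`. -/
noncomputable def br (K : Type*) [Field K] : ℕ → FreeAlgebra K (Fin 2)
  | 0 => FreeAlgebra.ι K 0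
  | k + 1 => br K k * FreeAlgebra.ι K 1 - FreeAlgebra.ι K 1 * br K k

/-- The subalgebra generated by the commutators `[x, y]`, `[[x, y], y]`, … -/
noncomputable def BB (K : Type*) [Field K] : Subalgebra K (FreeAlgebra K (Fin 2)) :=
  Algebra.adjoin K {u | ∃ k, u = br K (k + 1)}

lemma comm_mem (b : FreeAlgebra K (Fin 2)) (hb : b ∈ BB K) :
    b * FreeAlgebra.ι K 1 - FreeAlgebra.ι K 1 * b ∈ BB K := by
  unfold BB at hb ⊢
  induction hb using Algebra.adjoin_induction with
  | mem u hu =>
    obtain ⟨k, rfl⟩ := hu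
    exact Algebra.subset_adjoin ⟨k + 1, rfl⟩
  | algebraMap r =>
    rw [Algebra.commutes, sub_self]
    exact Subalgebra.zero_mem _
  | add u v _ _ h1 h2 =>
    have : (u + v) * FreeAlgebra.ι K 1 - FreeAlgebra.ι K 1 * (u + v) =
      (u * FreeAlgebra.ι K 1 - FreeAlgebra.ι K 1 * u) +
      (v * FreeAlgebra.ι K 1 - FreeAlgebra.ι K 1 * v) := by noncomm_ring
    rw [this]
    exact Subalgebra.add_mem _ h1 h2
  | mul u v hu hv h1 h2 =>
    have : (u * v) * FreeAlgebra.ι K 1 - FreeAlgebra.ι K 1 * (u * v) =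
      u * (v * FreeAlgebra.ι K 1 - FreeAlgebra.ι K 1 * v) +
      (u * FreeAlgebra.ι K 1 - FreeAlgebra.ι K 1 * u) * v := by noncomm_ring
    rw [this]
    exact Subalgebra.add_mem _ (Subalgebra.mul_mem _ hu h2) (Subalgebra.mul_mem _ h1 hv)

/-- `∑ y ^ j b_j` -/
noncomputable def Ph (K : Type*) [Field K] : (ℕ →₀ BB K) →ₗ[K] FreeAlgebra K (Fin 2) :=
  Finsupp.lsum K fun j => (LinearMap.mulLeft K (FreeAlgebra.ι K 1 ^ j)).comp
    (BB K).val.toLinearMap

lemma Ph_single (j : ℕ) (b : BB K) : Ph K (Finsupp.single j b) =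
    FreeAlgebra.ι K 1 ^ j * (b : FreeAlgebra K (Fin 2)) := by
  simp [Ph]

lemma Ph_mul_y (b : ℕ →₀ BB K) : Ph K b * FreeAlgebra.ι K 1 ∈ LinearMap.range (Ph K) := by
  induction b using Finsupp.induction_linear with
  | zero => rw [map_zero, zero_mul]; exact Submodule.zero_mem _
  | add f g hf hg => rw [map_add, add_mul]; exact Submodule.add_mem _ hf hg
  | single j b =>
    rw [Ph_single]
    have : FreeAlgebra.ι K 1 ^ j * (b : FreeAlgebra K (Fin 2)) * FreeAlgebra.ι K 1 =
      FreeAlgebra.ι K 1 ^ (j + 1) * (b : FreeAlgebra K (Fin 2)) + FreeAlgebra.ι K 1 ^ j *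
        ((b : FreeAlgebra K (Fin 2)) * FreeAlgebra.ι K 1 -
          FreeAlgebra.ι K 1 * (b : FreeAlgebra K (Fin 2))) := by
      rw [pow_succ]; noncomm_ring
    rw [this]
    refine Submodule.add_mem _ ⟨Finsupp.single (j + 1) b, Ph_single _ _⟩
      ⟨Finsupp.single j ⟨_, comm_mem b b.2⟩, Ph_single _ _⟩

lemma Ph_mul_b (b : ℕ →₀ BB K) (c : FreeAlgebra K (Fin 2)) (hc : c ∈ BB K) :
    Ph K b * c ∈ LinearMap.range (Ph K) := by
  induction b using Finsupp.induction_linear with
  | zero => rw [map_zero, zero_mul]; exact Submodule.zero_mem _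
  | add f g hf hg => rw [map_add, add_mul]; exact Submodule.add_mem _ hf hg
  | single j b =>
    rw [Ph_single, mul_assoc]
    exact ⟨Finsupp.single j ⟨_, Subalgebra.mul_mem _ b.2 hc⟩, Ph_single _ _⟩

lemma mul_brk (g : FreeAlgebra K (Fin 2)) : ∀ u ∈ LinearMap.range (Ph K),
    u * brk g ∈ LinearMap.range (Ph K) := by
  unfold brk
  induction g using FreeAlgebra.induction with
  | grade0 r =>
    intro u hu
    rw [AlgHom.commutes, ← Algebra.commutes, ← Algebra.smul_def]
    exact Submodule.smul_mem _ _ hu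
  | grade1 i =>
    rintro u ⟨b, rfl⟩
    rw [FreeAlgebra.lift_ι_apply]
    fin_cases i
    · exact Ph_mul_b b (br K 1) (Algebra.subset_adjoin ⟨0, rfl⟩)
    · exact Ph_mul_y b
  | mul a b ha hb =>
    intro u hu
    rw [map_mul, ← mul_assoc]
    exact hb _ (ha _ hu)
  | add a b ha hb =>
    intro u hu
    rw [map_add, mul_add]
    exact Submodule.add_mem _ (ha _ hu) (hb _ hu)

lemma brk_form (g : FreeAlgebra K (Fin 2)) : ∃ (m : ℕ) (b : ℕ → FreeAlgebra K (Fin 2)),
    (∀ j, b j ∈ BB K) ∧ brk g = ∑ j ∈ Finset.range m, FreeAlgebra.ι K 1 ^ j * b j := by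
  have h1 : (1 : FreeAlgebra K (Fin 2)) ∈ LinearMap.range (Ph K) :=
    ⟨Finsupp.single 0 1, by rw [Ph_single]; simp⟩
  have h2 := mul_brk g 1 h1
  rw [one_mul] at h2
  obtain ⟨b, hb⟩ := h2
  refine ⟨b.support.sup id + 1, fun j => (b j : FreeAlgebra K (Fin 2)), fun j => (b j).2, ?_⟩
  rw [← hb]
  have hsub : b.support ⊆ Finset.range (b.support.sup id + 1) := by
    intro j hj
    rw [Finset.mem_range]
    have := Finset.le_sup (f := id) hj
    simp only [id_eq] at this
    omega
  have : Ph K b = b.sum fun j c => FreeAlgebra.ι K 1 ^ j * (c : FreeAlgebra K (Fin 2)) := by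
    simp only [Ph, Finsupp.lsum_apply]
    rfl
  rw [this, Finsupp.sum_of_support_subset b hsub _ (by intro i _; simp)]

lemma br_shift {A : Type*} [Ring A] [Algebra K A] (X : Fin 2 → A) (t : K) (k : ℕ) :
    FreeAlgebra.lift K ![X 0, X 1 + algebraMap K A t] (br K (k + 1)) =
      FreeAlgebra.lift K X (br K (k + 1)) := by
  induction k with
  | zero =>
    simp only [br, map_sub, map_mul, FreeAlgebra.lift_ι_apply, Matrix.cons_val_zero,
      Matrix.cons_val_one]
    rw [mul_add, add_mul, Algebra.commutes]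
    abel
  | succ k ih =>
    rw [br, map_sub, map_mul, map_mul, ih, map_sub, map_mul, map_mul]
    simp only [FreeAlgebra.lift_ι_apply, Matrix.cons_val_one, Matrix.cons_val_zero]
    rw [mul_add, add_mul, Algebra.commutes]
    abel

lemma BB_shift {A : Type*} [Ring A] [Algebra K A] (X : Fin 2 → A) (t : K)
    (b : FreeAlgebra K (Fin 2)) (hb : b ∈ BB K) :
    FreeAlgebra.lift K ![X 0, X 1 + algebraMap K A t] b = FreeAlgebra.lift K X b := by
  unfold BB at hb
  induction hb using Algebra.adjoin_induction with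
  | mem u hu => obtain ⟨k, rfl⟩ := hu; exact br_shift X t k
  | algebraMap r => rw [AlgHom.commutes, AlgHom.commutes]
  | add u v _ _ h1 h2 => rw [map_add, map_add, h1, h2]
  | mul u v _ _ h1 h2 => rw [map_mul, map_mul, h1, h2]

lemma elim_top [Infinite K] (Y : Matrix (Fin n) (Fin n) K) (m : ℕ) (hm : 1 ≤ m)
    (B : ℕ → Matrix (Fin n) (Fin n) K) (F : Matrix (Fin n) (Fin n) K)
    (h : ∀ t : K, ∑ j ∈ Finset.range (m + 1), (Y + algebraMap K _ t) ^ j * B j = F) : B m = 0 := by
  classical
  set P : Matrix (Fin n) (Fin n) (Polynomial K) :=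
    ∑ j ∈ Finset.range (m + 1), (Polynomial.X ^ (m - j) : Polynomial K) •
      (((Polynomial.X : Polynomial K) • Y.map Polynomial.C + 1) ^ j * (B j).map Polynomial.C) -
      (Polynomial.X ^ m : Polynomial K) • F.map Polynomial.C with hP
  have hsm : ∀ (s : K) (c : Polynomial K) (M : Matrix (Fin n) (Fin n) (Polynomial K)),
      (Polynomial.evalRingHom s).mapMatrix (c • M) =
        (c.eval s) • (Polynomial.evalRingHom s).mapMatrix M := by
    intro s c M
    ext i j
    simp
  have hC : ∀ (s : K) (M : Matrix (Fin n) (Fin n) K),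
      (Polynomial.evalRingHom s).mapMatrix (M.map Polynomial.C) = M := by
    intro s M
    ext i j
    simp
  have hev : ∀ s : K, (Polynomial.evalRingHom s).mapMatrix P =
      ∑ j ∈ Finset.range (m + 1), s ^ (m - j) • ((s • Y + 1) ^ j * B j) - s ^ m • F := by
    intro s
    rw [hP, map_sub, map_sum, hsm, hC]
    congr 1
    · refine Finset.sum_congr rfl fun j _ => ?_
      rw [hsm, map_mul, map_pow, map_add, hsm, hC, hC, map_one]
      simp
    · simp
  have h0 : P = 0 := by
    ext1 i j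
    rw [Matrix.zero_apply]
    apply poly_zero
    intro s hs
    have e : (Polynomial.evalRingHom s).mapMatrix P = 0 := by
      rw [hev, ← h s⁻¹, Finset.smul_sum, sub_eq_zero]
      refine Finset.sum_congr rfl fun j hj => ?_
      have hj' : j ≤ m := Nat.lt_succ_iff.1 (Finset.mem_range.1 hj)
      have e1 : s • Y + 1 = s • (Y + algebraMap K _ s⁻¹) := by
        rw [smul_add, Algebra.smul_def s (algebraMap K _ s⁻¹), ← map_mul, mul_inv_cancel₀ hs,
          map_one]
      rw [e1, smul_pow, smul_mul_assoc, smul_smul, ← pow_add, Nat.sub_add_cancel hj']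
    have e2 := congrFun (congrFun e i) j
    simpa using e2
  have h1 := hev 0
  rw [h0, map_zero, Finset.sum_eq_single m] at h1
  · rw [Nat.sub_self, pow_zero, one_smul, zero_smul, zero_add, one_pow, one_mul,
      zero_pow (by omega), zero_smul, sub_zero] at h1
    exact h1.symm
  · intro j hj hjm
    have hj' : j < m + 1 := Finset.mem_range.1 hj
    rw [zero_pow (by omega), zero_smul]
  · intro h
    exact absurd (Finset.mem_range.2 (Nat.lt_succ_self m)) h

lemma elim_all [Infinite K] (Y : Matrix (Fin n) (Fin n) K) (B : ℕ → Matrix (Fin n) (Fin n) K)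
    (F : Matrix (Fin n) (Fin n) K) (m : ℕ)
    (h : ∀ t : K, ∑ j ∈ Finset.range (m + 1), (Y + algebraMap K _ t) ^ j * B j = F) :
    B 0 = F := by
  induction m with
  | zero => simpa using h 0
  | succ m ih =>
    apply ih
    intro t
    have h1 := elim_top Y (m + 1) (by omega) B F h
    have h2 := h t
    rw [Finset.sum_range_succ, h1, mul_zero, add_zero] at h2
    exact h2

/-- A translation invariant polynomial of the form `g([x, y], y)` is equal, on `M_n(K)`, to a
polynomial in the commutators `[x, y, …, y]`. -/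
theorem to_BB [Infinite K] (g : FreeAlgebra K (Fin 2))
    (h : ∀ (t : K) (X : Fin 2 → Matrix (Fin n) (Fin n) K),
      FreeAlgebra.lift K ![X 0, X 1 + Matrix.scalar (Fin n) t] (brk g) =
        FreeAlgebra.lift K X (brk g)) :
    ∃ f ∈ BB K, ∀ X : Fin 2 → Matrix (Fin n) (Fin n) K,
      FreeAlgebra.lift K X f = FreeAlgebra.lift K X (brk g) := by
  obtain ⟨m, b, hb, hg⟩ := brk_form g
  rcases m with _ | m
  · refine ⟨0, Subalgebra.zero_mem _, fun X => ?_⟩
    rw [hg, Finset.range_zero, Finset.sum_empty]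
  refine ⟨b 0, hb 0, fun X => ?_⟩
  refine elim_all (X 1) (fun j => FreeAlgebra.lift K X (b j)) _ m fun t => ?_
  rw [← h t X, hg, map_sum]
  refine Finset.sum_congr rfl fun j _ => ?_
  rw [map_mul, map_pow, FreeAlgebra.lift_ι_apply]
  have : (Matrix.scalar (Fin n) t : Matrix (Fin n) (Fin n) K) = algebraMap K _ t := rfl
  rw [this, BB_shift X t (b j) (hb j)]
  simp

lemma word_two {A : Type*} [Ring A] [Algebra K A] (c : Fin 2 → K) (X : Fin 2 → A)
    (l : List (Fin 2)) : (l.map fun i => c i • X i).prod =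
      (c 0 ^ l.count 0 * c 1 ^ l.count 1) • (l.map X).prod := by
  induction l with
  | nil => simp
  | cons i l ih =>
    rw [List.map_cons, List.prod_cons, ih, List.map_cons, List.prod_cons, smul_mul_smul_comm]
    congr 1
    fin_cases i
    · simp [pow_succ]; ring
    · simp [pow_succ]; ring

lemma hom_two (g : FreeAlgebra K (Fin 2)) (a b : ℕ)
    (h : ∀ l, coef g l ≠ 0 → l.count 0 = a ∧ l.count 1 = b) {A : Type*} [Ring A] [Algebra K A]
    (s t : K) (X : Fin 2 → A) :
    FreeAlgebra.lift K ![s • X 0, t • X 1] g = (s ^ a * t ^ b) • FreeAlgebra.lift K X g := by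
  have e : (![s • X 0, t • X 1] : Fin 2 → A) = fun i => (![s, t] : Fin 2 → K) i • X i := by
    funext i
    fin_cases i <;> simp
  rw [e, lift_eq, lift_eq, Finset.smul_sum]
  refine Finset.sum_congr rfl fun l hl => ?_
  obtain ⟨h1, h2⟩ := h l (mem_supp.1 hl)
  rw [word_two, h1, h2, smul_comm]
  simp

end Pool.Agent.R683.NP
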