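import Pool.Agent.R683.NP.Lead

/-!
Shifts of a variable and reduction to two variables.
-/

set_option autoImplicit false

namespace Pool.Agent.R683.NP

open Matrix Pool.Agent.H552R3.PC Pool.Agent.TH82.NC Pool.Agent.R676.NC
open Pool.Agent.Results.MP_5d2531_al.BlockTriangular

variable {K : Type*} [Field K] {σ : Type*} {n : ℕ}

lemma const_of_inv [Infinite K] (P Q : Polynomial K)
    (h : ∀ s : K, s ≠ 0 → P.eval s = Q.eval s⁻¹) (u v : K) : Q.eval u = Q.eval v := by
  have h1 : Polynomial.X ^ Q.natDegree * P - Q.reverse = 0 := by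
    apply poly_zero
    intro s hs
    have hs' : s⁻¹ ≠ 0 := inv_ne_zero hs
    letI : Invertible s⁻¹ := invertibleOfNonzero hs'
    have e := Polynomial.eval₂_reverse_mul_pow (RingHom.id K) (s⁻¹) Q
    rw [invOf_eq_inv, inv_inv] at e
    change Q.reverse.eval s * s⁻¹ ^ Q.natDegree = Q.eval s⁻¹ at e
    rw [Polynomial.eval_sub, Polynomial.eval_mul, Polynomial.eval_pow, Polynomial.eval_X, h s hs,
      ← e, inv_pow]
    field_simp
    ring
  have h2 : Q.natDegree = 0 := by
    by_contra hd
    have e : (Polynomial.X ^ Q.natDegree * P).coeff 0 = Q.reverse.coeff 0 := by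
      rw [sub_eq_zero.1 h1]
    rw [Polynomial.coeff_zero_reverse, Polynomial.coeff_zero_eq_eval_zero, Polynomial.eval_mul,
      Polynomial.eval_pow, Polynomial.eval_X, zero_pow hd, zero_mul] at e
    have : Q = 0 := Polynomial.leadingCoeff_eq_zero.1 e.symm
    rw [this] at hd
    simp at hd
  rw [Polynomial.eq_C_of_natDegree_eq_zero h2, Polynomial.eval_C, Polynomial.eval_C]

lemma comp_hom (w : σ → ℤ) (j : ℤ) (f : FreeAlgebra K σ) (s : K) (hs : s ≠ 0)
    (X : σ → Matrix (Fin n) (Fin n) K) (hf : ∀ l, coef f l ≠ 0 → (l.map w).sum = j) :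
    FreeAlgebra.lift K (fun i => s ^ w i • X i) f = s ^ j • FreeAlgebra.lift K X f := by
  rw [lift_eq, lift_eq, Finset.smul_sum]
  refine Finset.sum_congr rfl fun l hl => ?_
  rw [word_scale w X s hs, hf l (mem_supp.1 hl), smul_comm]

lemma comp_other [Infinite K] (w w' : σ → ℤ) (j j' : ℤ) (f : FreeAlgebra K σ)
    (hf : ∀ s : K, s ≠ 0 → ∀ X : σ → Matrix (Fin n) (Fin n) K,
      FreeAlgebra.lift K (fun i => s ^ w' i • X i) f = s ^ j' • FreeAlgebra.lift K X f)
    (s : K) (hs : s ≠ 0) (X : σ → Matrix (Fin n) (Fin n) K) :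
    FreeAlgebra.lift K (fun i => s ^ w' i • X i) (comp w j f) =
      s ^ j' • FreeAlgebra.lift K X (comp w j f) := by
  by_cases hj : j ∈ wts w f
  · have h := cmp (wts w f) (fun j => FreeAlgebra.lift K (fun i => s ^ w' i • X i) (comp w j f) -
      s ^ j' • FreeAlgebra.lift K X (comp w j f)) ?_ j hj
    · exact sub_eq_zero.1 h
    · intro t ht
      have e1 := lift_scale w f (fun i => s ^ w' i • X i) t ht
      have e2 := lift_scale w f X t ht
      have e3 := hf s hs (fun i => t ^ w i • X i)
      have e4 : (fun i => t ^ w i • s ^ w' i • X i) = fun i => s ^ w' i • t ^ w i • X i := by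
        funext i
        rw [smul_comm]
      rw [e4, e3, e2] at e1
      simp_rw [smul_sub]
      rw [Finset.sum_sub_distrib, ← e1, Finset.smul_sum, sub_eq_zero]
      exact Finset.sum_congr rfl fun i _ => smul_comm _ _ _
  · rw [comp_of_not_mem w j f hj, map_zero, map_zero, smul_zero]

lemma comp_self [Infinite K] (w : σ → ℤ) (j : ℤ) (f : FreeAlgebra K σ)
    (hf : ∀ s : K, s ≠ 0 → ∀ X : σ → Matrix (Fin n) (Fin n) K,
      FreeAlgebra.lift K (fun i => s ^ w i • X i) f = s ^ j • FreeAlgebra.lift K X f)
    (X : σ → Matrix (Fin n) (Fin n) K) :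
    FreeAlgebra.lift K X (comp w j f) = FreeAlgebra.lift K X f := by
  classical
  have h := cmp (insert j (wts w f)) (fun i => FreeAlgebra.lift K X (comp w i f) -
    if i = j then FreeAlgebra.lift K X f else 0) ?_ j (Finset.mem_insert_self _ _)
  · simp only [if_true] at h
    exact sub_eq_zero.1 h
  · intro s hs
    have e1 := lift_scale w f X s hs
    have e2 : ∑ i ∈ insert j (wts w f), s ^ i • FreeAlgebra.lift K X (comp w i f) =
        ∑ i ∈ wts w f, s ^ i • FreeAlgebra.lift K X (comp w i f) := by
      by_cases hj : j ∈ wts w f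
      · rw [Finset.insert_eq_of_mem hj]
      · rw [Finset.sum_insert hj, comp_of_not_mem w j f hj, map_zero, smul_zero, zero_add]
    simp_rw [smul_sub]
    rw [Finset.sum_sub_distrib, e2, ← e1, hf s hs X, sub_eq_zero, Finset.sum_eq_single j]
    · rw [if_pos rfl]
    · intro i _ hij
      rw [if_neg hij, smul_zero]
    · intro h
      exact absurd (Finset.mem_insert_self _ _) h

lemma comp_neg (w : σ → ℤ) (j : ℤ) (f : FreeAlgebra K σ) :
    comp (fun i => - w i) (-j) f = comp w j f := by
  classical
  unfold comp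
  refine Finset.sum_congr ?_ fun _ _ => rfl
  apply Finset.filter_congr
  intro l _
  have : ∀ l : List σ, (l.map fun i => - w i).sum = -(l.map w).sum := by
    intro l
    induction l with
    | nil => simp
    | cons a l ih => simp only [List.map_cons, List.sum_cons, ih]; ring
  rw [this, neg_inj]

/-- the component of least weight -/
theorem low [Infinite K] (hn : n.Prime) (w : σ → ℤ) (f : FreeAlgebra K σ)
    (hf : IsNuCentral n n f) :
    ∃ N : ℤ, IsNuCentral n n (comp w N f) ∧ ∀ j : ℤ, j < N → ScalarValued n (comp w j f) ∧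
      ((n : K) ≠ 0 → ∀ X : σ → Matrix (Fin n) (Fin n) K, FreeAlgebra.lift K X (comp w j f) = 0) := by
  obtain ⟨N, h1, h2⟩ := lead hn (fun i => - w i) f hf
  refine ⟨-N, ?_, fun j hj => ?_⟩
  · rw [← comp_neg, neg_neg]; exact h1
  · rw [← comp_neg]; exact h2 (-j) (by omega)

lemma ncentral_congr [Infinite K] (hn : n.Prime) (f g : FreeAlgebra K σ)
    (h : ∀ X : σ → Matrix (Fin n) (Fin n) K, FreeAlgebra.lift K X f = FreeAlgebra.lift K X g)
    (hf : IsNuCentral n n f) : IsNuCentral n n g := by
  rw [ncentral_iff hn] at hf ⊢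
  refine ⟨fun X => ?_, fun h2 => hf.2 fun X => ?_⟩
  · rw [map_pow, ← h, ← map_pow]; exact hf.1 X
  · rw [h]; exact h2 X

/-- the substitution of `x + q` for `x` -/
noncomputable def sub [DecidableEq σ] (x : σ) (q : FreeAlgebra K σ) (f : FreeAlgebra K σ) :
    FreeAlgebra K σ :=
  FreeAlgebra.lift K (Function.update (FreeAlgebra.ι K) x (FreeAlgebra.ι K x + q)) f

lemma lift_subst {A : Type*} [Ring A] [Algebra K A] {τ : Type*} (p : σ → FreeAlgebra K τ)
    (X : τ → A) (f : FreeAlgebra K σ) :
    FreeAlgebra.lift K X (FreeAlgebra.lift K p f) =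
      FreeAlgebra.lift K (fun i => FreeAlgebra.lift K X (p i)) f := by
  have h : (FreeAlgebra.lift K X).comp (FreeAlgebra.lift K p) =
      FreeAlgebra.lift K (fun i => FreeAlgebra.lift K X (p i)) := by
    apply FreeAlgebra.hom_ext
    funext i
    simp
  exact congrArg (fun φ => φ f) h

lemma lift_sub [DecidableEq σ] {A : Type*} [Ring A] [Algebra K A] (x : σ) (q f : FreeAlgebra K σ)
    (X : σ → A) : FreeAlgebra.lift K X (sub x q f) =
      FreeAlgebra.lift K (Function.update X x (X x + FreeAlgebra.lift K X q)) f := by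
  unfold sub
  rw [lift_subst]
  congr 2
  funext i
  by_cases hi : i = x
  · subst hi; simp
  · simp [hi]

lemma ncentral_sub [Infinite K] [DecidableEq σ] (hn : n.Prime) (x : σ) (q f : FreeAlgebra K σ)
    (hq : ∀ (X : σ → Matrix (Fin n) (Fin n) K) (A : Matrix (Fin n) (Fin n) K),
      FreeAlgebra.lift K (Function.update X x A) q = FreeAlgebra.lift K X q)
    (hf : IsNuCentral n n f) : IsNuCentral n n (sub x q f) := by
  rw [ncentral_iff hn] at hf ⊢
  refine ⟨fun X => ?_, fun h2 => hf.2 fun X => ?_⟩
  · rw [map_pow, lift_sub, ← map_pow]; exact hf.1 _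
  · have := h2 (Function.update X x (X x - FreeAlgebra.lift K X q))
    rw [lift_sub, hq] at this
    simpa using this

/-- The key argument. -/
theorem shift [Infinite K] [DecidableEq σ] (x : σ) (q f : FreeAlgebra K σ)
    (hq : ∀ (X : σ → Matrix (Fin n) (Fin n) K) (A : Matrix (Fin n) (Fin n) K),
      FreeAlgebra.lift K (Function.update X x A) q = FreeAlgebra.lift K X q) (a : ℕ)
    (hf : ∀ s : K, s ≠ 0 → ∀ X : σ → Matrix (Fin n) (Fin n) K,
      FreeAlgebra.lift K (fun i => s ^ (Pi.single x 1 : σ → ℤ) i • X i) f =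
        s ^ (a : ℤ) • FreeAlgebra.lift K X f)
    (μ : Matrix (Fin n) (Fin n) K →ₗ[K] K)
    (hμ : ∀ m : ℤ, m < a → ∀ X : σ → Matrix (Fin n) (Fin n) K,
      μ (FreeAlgebra.lift K X (comp (Pi.single x 1 : σ → ℤ) m (sub x q f))) = 0)
    (X : σ → Matrix (Fin n) (Fin n) K) :
    μ (FreeAlgebra.lift K (Function.update X x (X x + FreeAlgebra.lift K X q)) f) =
      μ (FreeAlgebra.lift K X f) := by
  classical
  set w : σ → ℤ := Pi.single x 1 with hw
  -- the polynomial in `u`
  set XP : σ → Matrix (Fin n) (Fin n) (Polynomial K) := Function.update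
    (fun i => (X i).map Polynomial.C) x ((X x).map Polynomial.C +
      (Polynomial.X : Polynomial K) • (FreeAlgebra.lift K X q).map Polynomial.C) with hXP
  set G : Polynomial K := ∑ b, ∑ c, Polynomial.C (μ (Matrix.single b c 1)) *
    (FreeAlgebra.lift K XP f) b c with hG
  have hGe : ∀ u : K, G.eval u =
      μ (FreeAlgebra.lift K (Function.update X x (X x + u • FreeAlgebra.lift K X q)) f) := by
    intro u
    have e1 : (Polynomial.aeval u : Polynomial K →ₐ[K] K).mapMatrix (FreeAlgebra.lift K XP f) =
        FreeAlgebra.lift K (Function.update X x (X x + u • FreeAlgebra.lift K X q)) f := by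
      rw [lift_map]
      congr 2
      funext i
      by_cases hi : i = x
      · subst hi
        ext b c
        simp [hXP]
        ring
      · ext b c
        simp [hXP, hi]
    rw [← e1]
    set M := (Polynomial.aeval u : Polynomial K →ₐ[K] K).mapMatrix (FreeAlgebra.lift K XP f) with hM
    have e2 : μ M = ∑ b, ∑ c, μ (Matrix.single b c 1) * M b c := by
      conv_lhs => rw [Matrix.matrix_eq_sum_single M]
      rw [map_sum]
      refine Finset.sum_congr rfl fun b _ => ?_
      rw [map_sum]
      refine Finset.sum_congr rfl fun c _ => ?_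
      have : Matrix.single b c (M b c) = M b c • Matrix.single b c (1 : K) := by
        rw [Matrix.smul_single, smul_eq_mul, mul_one]
      rw [this, map_smul, smul_eq_mul, mul_comm]
    rw [e2, hG, Polynomial.eval_finsetSum]
    refine Finset.sum_congr rfl fun b _ => ?_
    rw [Polynomial.eval_finsetSum]
    refine Finset.sum_congr rfl fun c _ => ?_
    rw [Polynomial.eval_mul, Polynomial.eval_C, hM, AlgHom.mapMatrix_apply, Matrix.map_apply,
      Polynomial.coe_aeval_eq_eval]
  set S := wts w (sub x q f) with hS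
  set P : Polynomial K := ∑ m ∈ S.filter (fun m => (a : ℤ) ≤ m),
    Polynomial.C (μ (FreeAlgebra.lift K X (comp w m (sub x q f)))) *
      Polynomial.X ^ ((m - a).toNat) with hP
  have hPG : ∀ s : K, s ≠ 0 → P.eval s = G.eval s⁻¹ := by
    intro s hs
    rw [hGe]
    have e1 : FreeAlgebra.lift K (fun i => s ^ w i • X i) (sub x q f) = s ^ (a : ℤ) •
        FreeAlgebra.lift K (Function.update X x (X x + s⁻¹ • FreeAlgebra.lift K X q)) f := by
      rw [lift_sub, ← hf s hs]
      have e2 : FreeAlgebra.lift K (fun i => s ^ w i • X i) q = FreeAlgebra.lift K X q := by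
        have : (fun i => s ^ w i • X i) = Function.update X x (s • X x) := by
          funext i
          by_cases hi : i = x
          · subst hi; simp [hw]
          · simp [hw, hi]
        rw [this, hq]
      rw [e2]
      congr 2
      funext i
      by_cases hi : i = x
      · subst hi
        simp [hw, smul_smul, hs]
      · simp [hw, hi]
    have e2 := congrArg μ (lift_scale w (sub x q f) X s hs)
    rw [e1, map_smul, map_sum, smul_eq_mul] at e2
    have e3 : s ^ (a : ℤ) * P.eval s = ∑ m ∈ S, μ (s ^ m • FreeAlgebra.lift K X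
        (comp w m (sub x q f))) := by
      rw [hP, Polynomial.eval_finsetSum, Finset.mul_sum, Finset.sum_filter]
      refine Finset.sum_congr rfl fun m _ => ?_
      rw [map_smul, smul_eq_mul]
      split_ifs with hm
      · rw [Polynomial.eval_mul, Polynomial.eval_C, Polynomial.eval_pow, Polynomial.eval_X,
          ← zpow_natCast, Int.toNat_of_nonneg (by omega)]
        rw [mul_left_comm, ← zpow_add₀ hs, mul_comm]
        congr 2
        ring
      · rw [hμ m (by omega) X, mul_zero]
    rw [← e3] at e2
    exact (mul_left_cancel₀ (zpow_ne_zero _ hs) e2).symm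
  have h := const_of_inv P G hPG 1 0
  rw [hGe, hGe] at h
  simpa using h

end Pool.Agent.R683.NP
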