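import Pool.Agent.R683.NP.Shift

/-!
Reduction to two variables: `M_n(K)` is generated by two matrices.
-/

set_option autoImplicit false

namespace Pool.Agent.R683.NP

open Matrix Pool.Agent.H552R3.PC Pool.Agent.TH82.NC Pool.Agent.R676.NC
open Pool.Agent.Results.MP_5d2531_al.BlockTriangular

variable {K : Type*} [Field K] {σ : Type*} {n : ℕ}

/-- cyclic permutation matrix -/
def cyc (K : Type*) [Field K] (n : ℕ) [NeZero n] : Matrix (Fin n) (Fin n) K :=
  Matrix.of fun a b => if a = b + 1 then 1 else 0

lemma cyc_pow [NeZero n] (k : ℕ) : (cyc K n) ^ k = Matrix.of fun a b : Fin n =>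
    if a = b + (k • (1 : Fin n)) then (1 : K) else 0 := by
  induction k with
  | zero =>
    ext a b
    rw [pow_zero, Matrix.one_apply, Matrix.of_apply, zero_nsmul, add_zero]
  | succ k ih =>
    ext a b
    rw [pow_succ, ih, Matrix.mul_apply, Finset.sum_eq_single (b + 1)]
    · simp only [cyc, Matrix.of_apply, if_true, mul_one]
      rw [succ_nsmul', add_assoc]
    · intro c _ hc
      simp only [cyc, Matrix.of_apply]
      rw [if_neg hc, mul_zero]
    · intro h; exact absurd (Finset.mem_univ _) h

lemma single_eq [NeZero n] (i j : Fin n) : Matrix.single i j (1 : K) =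
    (cyc K n) ^ (i : ℕ) * Matrix.single 0 0 1 * (cyc K n) ^ ((-j : Fin n) : ℕ) := by
  ext a b
  rw [Matrix.mul_apply, Finset.sum_eq_single 0]
  · rw [Matrix.mul_apply, Finset.sum_eq_single 0]
    · rw [cyc_pow, cyc_pow, val_nsmul_one, val_nsmul_one]
      simp only [Matrix.of_apply, Matrix.single_apply, zero_add]
      by_cases h1 : i = a
      · by_cases h2 : j = b
        · subst h1 h2
          simp
        · have : ¬ (0 = b + -j) := by
            intro e
            apply h2
            rw [← sub_eq_add_neg] at e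
            exact (sub_eq_zero.1 e.symm).symm
          simp [h2, this]
      · have : ¬ (a = i) := fun e => h1 e.symm
        simp [h1, this]
    · intro c _ hc
      rw [Matrix.single_apply, if_neg (fun h => hc h.1.symm), mul_zero]
    · intro h; exact absurd (Finset.mem_univ _) h
  · intro c _ hc
    rw [Matrix.mul_apply]
    rw [Finset.sum_eq_zero, zero_mul]
    intro d _
    rw [Matrix.single_apply, if_neg (fun h => hc h.2.symm), mul_zero]
  · intro h; exact absurd (Finset.mem_univ _) h

lemma two_gen [NeZero n] (M : Matrix (Fin n) (Fin n) K) :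
    ∃ p : FreeAlgebra K (Fin 2),
      FreeAlgebra.lift K ![Matrix.single 0 0 1, cyc K n] p = M := by
  set φ := FreeAlgebra.lift K (![Matrix.single 0 0 1, cyc K n] : Fin 2 → Matrix (Fin n) (Fin n) K)
    with hφ
  have hA : Matrix.single 0 0 1 ∈ φ.range := ⟨FreeAlgebra.ι K 0, by simp [hφ]⟩
  have hB : cyc K n ∈ φ.range := ⟨FreeAlgebra.ι K 1, by simp [hφ]⟩
  have : M ∈ φ.range := by
    rw [Matrix.matrix_eq_sum_single M]
    refine Subalgebra.sum_mem _ fun i _ => Subalgebra.sum_mem _ fun j _ => ?_
    have h1 : Matrix.single i j (M i j) = M i j • Matrix.single i j (1 : K) := by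
      rw [Matrix.smul_single, smul_eq_mul, mul_one]
    rw [h1, single_eq]
    exact Subalgebra.smul_mem _ (Subalgebra.mul_mem _ (Subalgebra.mul_mem _
      (Subalgebra.pow_mem _ hB _) hA) (Subalgebra.pow_mem _ hB _)) _
  exact this

theorem two_vars [Infinite K] (hn : n.Prime) (f : FreeAlgebra K σ) (hf : IsNuCentral n n f) :
    ∃ g : FreeAlgebra K (Fin 2), IsNuCentral n n g := by
  have : NeZero n := ⟨hn.ne_zero⟩
  rw [ncentral_iff hn] at hf
  obtain ⟨h1, h2⟩ := hf
  unfold ScalarValued at h2
  push Not at h2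
  obtain ⟨X0, hX0⟩ := h2
  choose p hp using fun i => two_gen (K := K) (X0 i)
  refine ⟨FreeAlgebra.lift K p f, ?_⟩
  rw [ncentral_iff hn]
  refine ⟨fun X => ?_, fun h3 => ?_⟩
  · rw [map_pow, lift_subst, ← map_pow]
    exact h1 _
  · obtain ⟨c, hc⟩ := h3 ![Matrix.single 0 0 1, cyc K n]
    rw [lift_subst] at hc
    apply hX0 c
    rw [← hc]
    congr 2
    funext i
    exact (hp i).symm

end Pool.Agent.R683.NP
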